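import Mathlib

set_option autoImplicit false
open Pointwise MeasureTheory Set Filter Topology

namespace Pool.Agent.TH870.FR

/-- a point `x` of `K` with `-(K - x) ⊆ n (K - x)`, by Helly's theorem -/
theorem exists_point {n : ℕ} (hn : 1 ≤ n) {K : Set (EuclideanSpace ℝ (Fin n))} (hK : IsCompact K)
    (hc : Convex ℝ K) (hne : K.Nonempty) :
    ∃ x ∈ K, ∀ y ∈ K, ∃ z ∈ K, x - y = (n : ℝ) • (z - x) := by
  have hn0 : (0:ℝ) < n := by exact_mod_cast hn
  set F : K → Set (EuclideanSpace ℝ (Fin n)) := fun y =>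
    (fun k => ((n : ℝ) / (n + 1)) • k + (1 / ((n : ℝ) + 1)) • (y : EuclideanSpace ℝ (Fin n))) '' K with hF
  have h1 : ∀ y, Convex ℝ (F y) := by
    intro y
    have h0 := (hc.smul ((n : ℝ) / (n + 1))).translate ((1 / ((n : ℝ) + 1)) • (y : EuclideanSpace ℝ (Fin n)))
    have e : F y = (fun w => (1 / ((n : ℝ) + 1)) • (y : EuclideanSpace ℝ (Fin n)) + w) ''
        (((n : ℝ) / (n + 1)) • K) := by
      rw [hF]
      ext w
      simp only [mem_image, Set.mem_smul_set]
      constructor
      · rintro ⟨k, hk, rfl⟩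
        exact ⟨_, ⟨k, hk, rfl⟩, add_comm _ _⟩
      · rintro ⟨_, ⟨k, hk, rfl⟩, rfl⟩
        exact ⟨k, hk, add_comm _ _⟩
    rw [e]
    exact h0
  have h2 : ∀ y, IsCompact (F y) := fun y => hK.image (by fun_prop)
  have h3 : ∀ I : Finset K, I.card ≤ Module.finrank ℝ (EuclideanSpace ℝ (Fin n)) + 1 →
      (⋂ i ∈ I, F i).Nonempty := by
    intro I hI
    rw [finrank_euclideanSpace_fin] at hI
    obtain ⟨p, hp⟩ := hne
    set c : ℝ := (n : ℝ) + 1 - I.card with hcd
    have hc0 : 0 ≤ c := by
      have : (I.card : ℝ) ≤ n + 1 := by exact_mod_cast hI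
      linarith
    -- the point
    refine ⟨(1 / ((n : ℝ) + 1)) • (∑ i ∈ I, (i : EuclideanSpace ℝ (Fin n)) + c • p), ?_⟩
    rw [mem_iInter₂]
    intro y hy
    refine ⟨(1 / (n : ℝ)) • (∑ i ∈ I.erase y, (i : EuclideanSpace ℝ (Fin n)) + c • p), ?_, ?_⟩
    · -- in K
      have hcard : ((I.erase y).card : ℝ) + c = n := by
        rw [Finset.card_erase_of_mem hy, Nat.cast_sub (Finset.card_pos.2 ⟨y, hy⟩)]
        rw [hcd]; push_cast; ring
      have hw : ∑ o : Option (I.erase y : Finset K), (o.elim (c / n) fun _ => 1 / (n : ℝ)) = 1 := by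
        rw [Fintype.sum_option]
        simp only [Option.elim, Finset.sum_const, Finset.card_univ, Fintype.card_coe, nsmul_eq_mul]
        field_simp
        linarith
      have := hc.sum_mem (t := (Finset.univ : Finset (Option (I.erase y : Finset K))))
        (w := fun o => o.elim (c / n) fun _ => 1 / (n : ℝ))
        (z := fun o => o.elim p fun i => ((i : K) : EuclideanSpace ℝ (Fin n)))
        (by rintro (_ | i) _ <;> simp only [Option.elim] <;> positivity) hw
        (by
          rintro (_ | i) _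
          · exact hp
          · exact (i : K).2)
      rw [Fintype.sum_option] at this
      simp only [Option.elim] at this
      convert this using 1
      rw [smul_add, smul_smul, Finset.smul_sum, add_comm]
      congr 1
      · congr 1; ring
      · rw [← Finset.sum_coe_sort (I.erase y) (fun i => (1 / (n : ℝ)) • (i : EuclideanSpace ℝ (Fin n)))]
    · simp only
      rw [← Finset.add_sum_erase I _ hy, smul_smul]
      have : (n : ℝ) / (n + 1) * (1 / n) = 1 / ((n : ℝ) + 1) := by field_simp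
      rw [this]
      module
  obtain ⟨x, hx⟩ := Convex.helly_theorem_compact' h1 h2 h3
  rw [mem_iInter] at hx
  have key : ∀ y ∈ K, ∃ z ∈ K, x - y = (n : ℝ) • (z - x) := by
    intro y hy
    obtain ⟨k, hk, e⟩ := hx ⟨y, hy⟩
    refine ⟨k, hk, ?_⟩
    simp only at e
    have h4 : ((n : ℝ) + 1) • x = (n : ℝ) • k + y := by
      rw [← e, smul_add, smul_smul, smul_smul]
      have e1 : ((n : ℝ) + 1) * (n / (n + 1)) = n := by field_simp
      have e2 : ((n : ℝ) + 1) * (1 / (n + 1)) = 1 := by field_simp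
      rw [e1, e2, one_smul]
    rw [smul_sub]
    have h5 : (n : ℝ) • k = ((n : ℝ) + 1) • x - y := by rw [h4]; abel
    rw [h5]
    module
  refine ⟨x, ?_, key⟩
  obtain ⟨y, hy⟩ := hne
  obtain ⟨k, hk, e⟩ := hx ⟨y, hy⟩
  rw [← e]
  exact hc hk hy (by positivity) (by positivity) (by field_simp)

end Pool.Agent.TH870.FR
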