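import Mathlib

/-!
An inequality between the exponents of simultaneous approximation `λ_n` and `λ_{n+1}`.
-/

set_option autoImplicit false

namespace Pool.Agent.TH870.Lam

open Finset

attribute [local instance] Matrix.seminormedAddCommGroup

/-- Siegel's lemma for a single integer linear form in `n + 1` variables. -/
theorem siegel_one (n : ℕ) (hn : 1 ≤ n) (x : ℕ → ℤ) (X : ℝ) (hX : 1 ≤ X)
    (hx : ∀ i ∈ range (n + 1), |(x i : ℝ)| ≤ X) :
    ∃ Q : ℕ → ℤ, (∃ i ∈ range (n + 1), Q i ≠ 0) ∧ ∑ i ∈ range (n + 1), Q i * x i = 0 ∧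
      ∀ i, |(Q i : ℝ)| ≤ (((n : ℝ) + 1) * X) ^ ((1 : ℝ) / n) := by
  classical
  obtain ⟨t, ht0, htA, htn⟩ := Int.Matrix.exists_ne_zero_int_vec_norm_le
    (Matrix.of (fun (_ : Fin 1) (j : Fin (n + 1)) => x j)) (by simp; omega) (by simp)
  have hB0 : (0 : ℝ) ≤ (((n : ℝ) + 1) * X) ^ ((1 : ℝ) / n) := by positivity
  have hnorm : ‖t‖ ≤ (((n : ℝ) + 1) * X) ^ ((1 : ℝ) / n) := by
    refine htn.trans ?_
    have e1 : ((Fintype.card (Fin 1) : ℕ) : ℝ) /
        (((Fintype.card (Fin (n + 1)) : ℕ) : ℝ) - ((Fintype.card (Fin 1) : ℕ) : ℝ)) =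
        (1 : ℝ) / n := by
      simp
    rw [e1]
    apply Real.rpow_le_rpow (by positivity) _ (by positivity)
    have e2 : ((Fintype.card (Fin (n + 1)) : ℕ) : ℝ) = (n : ℝ) + 1 := by simp
    rw [e2]
    apply mul_le_mul_of_nonneg_left _ (by positivity)
    apply max_le hX
    rw [Matrix.norm_le_iff (by linarith)]
    intro i j
    rw [Int.norm_eq_abs]
    exact hx j (Finset.mem_range.2 j.2)
  refine ⟨fun i => if h : i < n + 1 then t ⟨i, h⟩ else 0, ?_, ?_, ?_⟩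
  · have : ∃ j, t j ≠ 0 := by
      by_contra hcon
      push Not at hcon
      exact ht0 (funext hcon)
    obtain ⟨j, hj⟩ := this
    refine ⟨j, Finset.mem_range.2 j.2, ?_⟩
    dsimp only
    rw [dif_pos j.2]
    exact hj
  · have h1 := congrFun htA 0
    simp only [Matrix.mulVec, dotProduct, Pi.zero_apply, Matrix.of_apply] at h1
    rw [Finset.sum_range]
    refine Eq.trans ?_ h1
    apply Finset.sum_congr rfl
    intro i _
    dsimp only
    rw [dif_pos i.2, mul_comm]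
  · intro i
    dsimp only
    split_ifs with h
    · have h1 := norm_le_pi_norm t ⟨i, h⟩
      rw [Int.norm_eq_abs] at h1
      exact h1.trans hnorm
    · simpa using hB0

/-- A nonzero integer polynomial of degree at most `n` does not vanish at all of `0, …, n`. -/
theorem exists_c (n : ℕ) (Q : ℕ → ℤ) (hQ : ∃ i ∈ range (n + 1), Q i ≠ 0) :
    ∃ c ∈ range (n + 1), ∑ i ∈ range (n + 1), Q i * (c : ℤ) ^ i ≠ 0 := by
  classical
  by_contra hcon
  push Not at hcon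
  obtain ⟨i0, hi0, hQi⟩ := hQ
  set P : Polynomial ℤ := ∑ i ∈ range (n + 1), Polynomial.C (Q i) * Polynomial.X ^ i with hP
  have hcoeff : ∀ i ∈ range (n + 1), P.coeff i = Q i := by
    intro i hi
    rw [hP, Polynomial.finsetSum_coeff]
    simp only [Polynomial.coeff_C_mul, Polynomial.coeff_X_pow]
    rw [Finset.sum_eq_single i]
    · simp
    · intro b _ hb
      simp [Ne.symm hb]
    · intro h
      exact absurd hi h
  have hP0 : P = 0 := by
    apply Polynomial.eq_zero_of_natDegree_lt_card_of_eval_eq_zero' P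
      ((range (n + 1)).image (fun c : ℕ => (c : ℤ)))
    · intro z hz
      rw [Finset.mem_image] at hz
      obtain ⟨c, hc, rfl⟩ := hz
      rw [hP, Polynomial.eval_finsetSum]
      simp only [Polynomial.eval_mul, Polynomial.eval_C, Polynomial.eval_pow, Polynomial.eval_X]
      exact hcon c hc
    · rw [Finset.card_image_of_injective _ Nat.cast_injective, Finset.card_range]
      have : P.natDegree ≤ n := by
        rw [hP]
        apply Polynomial.natDegree_sum_le_of_forall_le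
        intro i hi
        refine (Polynomial.natDegree_C_mul_X_pow_le _ _).trans ?_
        rw [Finset.mem_range] at hi
        omega
      omega
  apply hQi
  rw [← hcoeff i0 hi0, hP0, Polynomial.coeff_zero]

/-- The algebraic identity behind the extension. `A j` is `φ((X^j - c^j)/(X - c))`. -/
theorem key_identity (n : ℕ) (Q x : ℕ → ℝ) (q ξ c : ℝ)
    (hsum : ∑ i ∈ range (n + 1), Q i * x i = 0) (j : ℕ) :
    let e : ℕ → ℝ := fun i => x i - q * ξ ^ i
    let A : ℕ → ℝ := fun j => ∑ i ∈ range j, c ^ (j - 1 - i) * x i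
    let E : ℕ → ℝ := fun j => ∑ i ∈ range j, c ^ (j - 1 - i) * e i
    let B : ℝ := ∑ k ∈ range (n + 1), Q k * A k
    let Qc : ℝ := ∑ k ∈ range (n + 1), Q k * c ^ k
    (ξ - c) * (Qc * A j - c ^ j * B - ξ ^ j * (- B)) =
      (ξ - c) * (Qc * E j) + (ξ ^ j - c ^ j) * (- (∑ i ∈ range (n + 1), Q i * e i) +
        (ξ - c) * ∑ k ∈ range (n + 1), Q k * E k) ∧
    (ξ - c) * (- B) = q * Qc + (∑ i ∈ range (n + 1), Q i * e i) -
      (ξ - c) * ∑ k ∈ range (n + 1), Q k * E k := by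
  intro e A E B Qc
  have hA : ∀ j, (ξ - c) * A j = q * (ξ ^ j - c ^ j) + (ξ - c) * E j := by
    intro j
    have h1 : A j = q * (∑ i ∈ range j, ξ ^ i * c ^ (j - 1 - i)) + E j := by
      simp only [A, E, e]
      rw [Finset.mul_sum, ← Finset.sum_add_distrib]
      apply Finset.sum_congr rfl
      intro i _
      ring
    have h2 : (∑ i ∈ range j, ξ ^ i * c ^ (j - 1 - i)) * (ξ - c) = ξ ^ j - c ^ j :=
      geom_sum₂_mul ξ c j
    rw [h1, ← h2]; ring
  have hB : (ξ - c) * B = q * ((∑ k ∈ range (n + 1), Q k * ξ ^ k) - Qc) +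
      (ξ - c) * ∑ k ∈ range (n + 1), Q k * E k := by
    simp only [B, Qc]
    rw [← Finset.sum_sub_distrib, Finset.mul_sum, Finset.mul_sum, Finset.mul_sum,
      ← Finset.sum_add_distrib]
    apply Finset.sum_congr rfl
    intro k _
    have := hA k
    calc (ξ - c) * (Q k * A k) = Q k * ((ξ - c) * A k) := by ring
      _ = Q k * (q * (ξ ^ k - c ^ k) + (ξ - c) * E k) := by rw [this]
      _ = _ := by ring
  have hQξ : q * (∑ k ∈ range (n + 1), Q k * ξ ^ k) = - (∑ i ∈ range (n + 1), Q i * e i) := by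
    have h1 : (∑ i ∈ range (n + 1), Q i * e i) = (∑ i ∈ range (n + 1), Q i * x i) -
        q * (∑ k ∈ range (n + 1), Q k * ξ ^ k) := by
      rw [Finset.mul_sum, ← Finset.sum_sub_distrib]
      apply Finset.sum_congr rfl
      intro i _
      simp only [e]
      ring
    rw [h1, hsum]; ring
  constructor
  · calc (ξ - c) * (Qc * A j - c ^ j * B - ξ ^ j * (- B))
        = Qc * ((ξ - c) * A j) + (ξ ^ j - c ^ j) * ((ξ - c) * B) := by ring
      _ = Qc * (q * (ξ ^ j - c ^ j) + (ξ - c) * E j) + (ξ ^ j - c ^ j) *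
          (q * ((∑ k ∈ range (n + 1), Q k * ξ ^ k) - Qc) +
            (ξ - c) * ∑ k ∈ range (n + 1), Q k * E k) := by rw [hA, hB]
      _ = (ξ - c) * (Qc * E j) + (ξ ^ j - c ^ j) *
          (q * (∑ k ∈ range (n + 1), Q k * ξ ^ k) +
            (ξ - c) * ∑ k ∈ range (n + 1), Q k * E k) := by ring
      _ = _ := by rw [hQξ]
  · calc (ξ - c) * (- B) = - ((ξ - c) * B) := by ring
      _ = - (q * ((∑ k ∈ range (n + 1), Q k * ξ ^ k) - Qc) +
            (ξ - c) * ∑ k ∈ range (n + 1), Q k * E k) := by rw [hB]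
      _ = q * Qc - q * (∑ k ∈ range (n + 1), Q k * ξ ^ k) -
            (ξ - c) * ∑ k ∈ range (n + 1), Q k * E k := by ring
      _ = _ := by rw [hQξ]; ring

/-- The estimate behind the passage from `n` to `n + 1`. -/
theorem core (n : ℕ) (hn : 1 ≤ n) (ξ : ℝ) (hξ : Irrational ξ) :
    ∃ K a : ℝ, 0 < K ∧ 0 < a ∧ ∀ (q : ℕ) (δ : ℝ), 0 < q → 0 ≤ δ → δ ≤ 1 →
      (∀ j ∈ Finset.Icc 1 n, |(q : ℝ) * ξ ^ j - ((round ((q : ℝ) * ξ ^ j) : ℤ) : ℝ)| ≤ δ) →
      K * (q : ℝ) ^ ((1 : ℝ) / n) * δ ≤ q →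
      ∃ y : ℕ → ℤ, (∀ j ∈ Finset.Icc 1 (n + 1),
          |(y j : ℝ) - ξ ^ j * (y 0 : ℝ)| ≤ K * (q : ℝ) ^ ((1 : ℝ) / n) * δ) ∧
        a * q ≤ |(y 0 : ℝ)| ∧ |(y 0 : ℝ)| ≤ K * (q * (q : ℝ) ^ ((1 : ℝ) / n)) := by
  classical
  obtain ⟨D, hD, hDc⟩ : ∃ D : ℝ, 0 < D ∧ ∀ c ∈ range (n + 1), D ≤ |ξ - (c : ℝ)| := by
    refine ⟨((range (n + 1)).image (fun c : ℕ => |ξ - (c : ℝ)|)).min'
      (by simp), ?_, ?_⟩
    · rw [Finset.lt_min'_iff]
      intro y hy
      rw [Finset.mem_image] at hy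
      obtain ⟨c, _, rfl⟩ := hy
      rw [abs_pos, sub_ne_zero]
      exact hξ.ne_nat c
    · intro c hc
      exact Finset.min'_le _ _ (Finset.mem_image_of_mem _ hc)
  have hnr : (1 : ℝ) ≤ n := by exact_mod_cast hn
  obtain ⟨R, hRdef⟩ : ∃ R : ℝ, R = |ξ| + n + 1 := ⟨_, rfl⟩
  have hR1 : 1 ≤ R := by rw [hRdef]; have := abs_nonneg ξ; linarith
  obtain ⟨T, hTdef⟩ : ∃ T : ℝ, T = R ^ (n + 1) := ⟨_, rfl⟩
  have hT1 : 1 ≤ T := by rw [hTdef]; exact one_le_pow₀ hR1
  have hRT : R ≤ T := by rw [hTdef]; exact le_self_pow₀ hR1 (by omega)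
  have hpow : ∀ z : ℝ, |z| ≤ R → ∀ i ≤ n + 1, |z| ^ i ≤ T := by
    intro z hz i hi
    rw [hTdef]
    calc |z| ^ i ≤ R ^ i := pow_le_pow_left₀ (abs_nonneg z) hz i
      _ ≤ R ^ (n + 1) := pow_le_pow_right₀ hR1 hi
  have hξR : |ξ| ≤ R := by rw [hRdef]; linarith
  have hcR : ∀ c ∈ range (n + 1), |((c : ℕ) : ℝ)| ≤ R := by
    intro c hc
    rw [Finset.mem_range] at hc
    have h1 : (c : ℝ) ≤ n := by exact_mod_cast (by omega : c ≤ n)
    rw [abs_of_nonneg (Nat.cast_nonneg c), hRdef]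
    have := abs_nonneg ξ
    linarith
  obtain ⟨N, hNdef⟩ : ∃ N : ℝ, N = (n : ℝ) + 1 := ⟨_, rfl⟩
  have hN1 : 1 ≤ N := by rw [hNdef]; linarith
  have hT0 : 0 < T := by linarith
  have hN0 : 0 < N := by linarith
  obtain ⟨A, hAdef⟩ : ∃ A : ℝ, A = (N * (T + 1)) ^ ((1 : ℝ) / n) := ⟨_, rfl⟩
  have hA0 : 0 < A := by rw [hAdef]; positivity
  set K : ℝ := (3 * N ^ 2 * T ^ 2 + 2 * T * N / D) * A + 2 * (N + N ^ 2 * T ^ 2) * A +
    (N * T + N + N ^ 2 * T ^ 2) * A / D with hK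
  have hK0 : 0 < K := by positivity
  refine ⟨K, 1 / (2 * T), hK0, by positivity, ?_⟩
  intro q δ hq hδ0 hδ1 happ hsmall
  have hq1 : (1 : ℝ) ≤ q := by exact_mod_cast hq
  have hq0 : (0 : ℝ) < q := by linarith
  obtain ⟨h, hhdef⟩ : ∃ h : ℝ, h = (q : ℝ) ^ ((1 : ℝ) / n) := ⟨_, rfl⟩
  have hh1 : 1 ≤ h := by rw [hhdef]; exact Real.one_le_rpow hq1 (by positivity)
  rw [← hhdef] at hsmall ⊢
  -- the integer point
  set x : ℕ → ℤ := fun i => if i = 0 then (q : ℤ) else round ((q : ℝ) * ξ ^ i) with hx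
  have he : ∀ i ∈ range (n + 1), |(x i : ℝ) - q * ξ ^ i| ≤ δ := by
    intro i hi
    rw [Finset.mem_range] at hi
    by_cases h0 : i = 0
    · subst h0
      simpa [hx] using hδ0
    · have h1 : x i = round ((q : ℝ) * ξ ^ i) := by simp [hx, h0]
      rw [h1, abs_sub_comm]
      exact happ i (Finset.mem_Icc.2 ⟨by omega, by omega⟩)
  have hxle : ∀ i ∈ range (n + 1), |(x i : ℝ)| ≤ (T + 1) * q := by
    intro i hi
    have h1 := he i hi
    have h2 : |(x i : ℝ)| ≤ |(x i : ℝ) - q * ξ ^ i| + |(q : ℝ) * ξ ^ i| := by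
      have := abs_add_le ((x i : ℝ) - q * ξ ^ i) ((q : ℝ) * ξ ^ i)
      rwa [sub_add_cancel] at this
    have h3 : |(q : ℝ) * ξ ^ i| ≤ q * T := by
      rw [abs_mul, abs_pow, abs_of_pos hq0]
      rw [Finset.mem_range] at hi
      exact mul_le_mul_of_nonneg_left (hpow ξ hξR i (by omega)) hq0.le
    linarith
  obtain ⟨Q, hQne, hQsum, hQle⟩ := siegel_one n hn x ((T + 1) * q) (by nlinarith) hxle
  have hQle' : ∀ i, |(Q i : ℝ)| ≤ A * h := by
    intro i
    refine (hQle i).trans (le_of_eq ?_)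
    rw [← hNdef, ← mul_assoc, Real.mul_rpow (by positivity) hq0.le, hAdef, hhdef]
  obtain ⟨c, hc, hQc⟩ := exists_c n Q hQne
  have hDc' := hDc c hc
  have hcR' := hcR c hc
  have hsumR : ∑ i ∈ range (n + 1), (Q i : ℝ) * (x i : ℝ) = 0 := by exact_mod_cast hQsum
  have key := fun j => key_identity n (fun i => (Q i : ℝ)) (fun i => (x i : ℝ)) q ξ c hsumR j
  simp only at key
  set e : ℕ → ℝ := fun i => (x i : ℝ) - q * ξ ^ i with hedef
  set AA : ℕ → ℝ := fun j => ∑ i ∈ range j, (c : ℝ) ^ (j - 1 - i) * (x i : ℝ) with hAAdef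
  set E : ℕ → ℝ := fun j => ∑ i ∈ range j, (c : ℝ) ^ (j - 1 - i) * e i with hEdef
  set B : ℝ := ∑ k ∈ range (n + 1), (Q k : ℝ) * AA k with hBdef
  set Qc : ℝ := ∑ k ∈ range (n + 1), (Q k : ℝ) * (c : ℝ) ^ k with hQcdef
  have hE : ∀ j ≤ n + 1, |E j| ≤ N * T * δ := by
    intro j hj
    calc |E j| ≤ ∑ i ∈ range j, |(c : ℝ) ^ (j - 1 - i) * e i| := Finset.abs_sum_le_sum_abs _ _
      _ ≤ ∑ i ∈ range j, T * δ := by
        apply Finset.sum_le_sum
        intro i hi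
        rw [Finset.mem_range] at hi
        rw [abs_mul, abs_pow]
        exact mul_le_mul (hpow c hcR' _ (by omega)) (he i (Finset.mem_range.2 (by omega)))
          (abs_nonneg _) hT0.le
      _ = j * (T * δ) := by rw [Finset.sum_const, Finset.card_range, nsmul_eq_mul]
      _ ≤ N * (T * δ) := by
        apply mul_le_mul_of_nonneg_right _ (by positivity)
        rw [hNdef]
        exact_mod_cast hj
      _ = N * T * δ := by ring
  have hQe : |∑ i ∈ range (n + 1), (Q i : ℝ) * e i| ≤ N * (A * h) * δ := by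
    calc |∑ i ∈ range (n + 1), (Q i : ℝ) * e i|
        ≤ ∑ i ∈ range (n + 1), |(Q i : ℝ) * e i| := Finset.abs_sum_le_sum_abs _ _
      _ ≤ ∑ i ∈ range (n + 1), (A * h) * δ := by
        apply Finset.sum_le_sum
        intro i hi
        rw [abs_mul]
        exact mul_le_mul (hQle' i) (he i hi) (abs_nonneg _) (by positivity)
      _ = N * (A * h) * δ := by
        rw [Finset.sum_const, Finset.card_range, nsmul_eq_mul, hNdef]; push_cast; ring
  have hQE : |∑ k ∈ range (n + 1), (Q k : ℝ) * E k| ≤ N ^ 2 * T * (A * h) * δ := by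
    calc |∑ i ∈ range (n + 1), (Q i : ℝ) * E i|
        ≤ ∑ i ∈ range (n + 1), |(Q i : ℝ) * E i| := Finset.abs_sum_le_sum_abs _ _
      _ ≤ ∑ i ∈ range (n + 1), (A * h) * (N * T * δ) := by
        apply Finset.sum_le_sum
        intro i hi
        rw [Finset.mem_range] at hi
        rw [abs_mul]
        exact mul_le_mul (hQle' i) (hE i (by omega)) (abs_nonneg _) (by positivity)
      _ = N ^ 2 * T * (A * h) * δ := by
        rw [Finset.sum_const, Finset.card_range, nsmul_eq_mul, hNdef]; push_cast; ring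
  have hQcle : |Qc| ≤ N * (A * h) * T := by
    calc |Qc| ≤ ∑ i ∈ range (n + 1), |(Q i : ℝ) * (c : ℝ) ^ i| := Finset.abs_sum_le_sum_abs _ _
      _ ≤ ∑ i ∈ range (n + 1), (A * h) * T := by
        apply Finset.sum_le_sum
        intro i hi
        rw [Finset.mem_range] at hi
        rw [abs_mul, abs_pow]
        exact mul_le_mul (hQle' i) (hpow c hcR' i (by omega)) (by positivity) (by positivity)
      _ = N * (A * h) * T := by
        rw [Finset.sum_const, Finset.card_range, nsmul_eq_mul, hNdef]; push_cast; ring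
  have hQcge : 1 ≤ |Qc| := by
    have h1 : Qc = ((∑ i ∈ range (n + 1), Q i * (c : ℤ) ^ i : ℤ) : ℝ) := by
      rw [hQcdef]; push_cast; rfl
    rw [h1, ← Int.cast_abs]
    exact_mod_cast Int.one_le_abs hQc
  have hξc0 : 0 < |ξ - (c : ℝ)| := lt_of_lt_of_le hD hDc'
  have hξcT : |ξ - (c : ℝ)| ≤ T := by
    refine le_trans ?_ hRT
    rw [Finset.mem_range] at hc
    have h1 : (c : ℝ) ≤ n := by exact_mod_cast (by omega : c ≤ n)
    have h2 : |ξ - (c : ℝ)| ≤ |ξ| + |(c : ℝ)| := abs_sub _ _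
    rw [abs_of_nonneg (Nat.cast_nonneg c : (0 : ℝ) ≤ (c : ℝ))] at h2
    rw [hRdef]; linarith
  -- integer valued versions
  refine ⟨fun j => (∑ k ∈ range (n + 1), Q k * (c : ℤ) ^ k) *
      (∑ i ∈ range j, (c : ℤ) ^ (j - 1 - i) * x i) -
      (c : ℤ) ^ j * ∑ k ∈ range (n + 1), Q k * ∑ i ∈ range k, (c : ℤ) ^ (k - 1 - i) * x i,
      ?_, ?_, ?_⟩
  · intro j hj
    rw [Finset.mem_Icc] at hj
    have h0 : (((∑ k ∈ range (n + 1), Q k * (c : ℤ) ^ k) *
      (∑ i ∈ range 0, (c : ℤ) ^ (0 - 1 - i) * x i) -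
      (c : ℤ) ^ 0 * ∑ k ∈ range (n + 1), Q k * ∑ i ∈ range k, (c : ℤ) ^ (k - 1 - i) * x i : ℤ) : ℝ)
      = - B := by
      rw [hBdef, hAAdef]; push_cast; simp
    have hj' : (((∑ k ∈ range (n + 1), Q k * (c : ℤ) ^ k) *
      (∑ i ∈ range j, (c : ℤ) ^ (j - 1 - i) * x i) -
      (c : ℤ) ^ j * ∑ k ∈ range (n + 1), Q k * ∑ i ∈ range k, (c : ℤ) ^ (k - 1 - i) * x i : ℤ) : ℝ)
      = Qc * AA j - c ^ j * B := by
      rw [hBdef, hAAdef, hQcdef]; push_cast; rfl
    rw [h0, hj']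
    have h1 := (key j).1
    have h2 : |ξ - (c : ℝ)| * |Qc * AA j - c ^ j * B - ξ ^ j * (- B)| ≤
        |ξ - (c : ℝ)| * (K * h * δ) := by
      rw [← abs_mul, h1]
      have e1 : |(ξ - (c : ℝ)) * (Qc * E j)| ≤ |ξ - (c : ℝ)| * ((N * (A * h) * T) * (N * T * δ)) := by
        rw [abs_mul, abs_mul Qc]
        apply mul_le_mul_of_nonneg_left _ (abs_nonneg _)
        exact mul_le_mul hQcle (hE j hj.2) (abs_nonneg _) (by positivity)
      have e2 : |ξ ^ j - (c : ℝ) ^ j| ≤ 2 * T := by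
        have h3 := abs_sub (ξ ^ j) ((c : ℝ) ^ j)
        rw [abs_pow, abs_pow] at h3
        have h4 := hpow ξ hξR j hj.2
        have h5 := hpow c hcR' j hj.2
        linarith
      have e3 : |(- (∑ i ∈ range (n + 1), (Q i : ℝ) * e i) +
          (ξ - (c : ℝ)) * ∑ k ∈ range (n + 1), (Q k : ℝ) * E k)| ≤
          |ξ - (c : ℝ)| * (N * (A * h) * δ / D + N ^ 2 * T * (A * h) * δ) := by
        refine (abs_add_le _ _).trans ?_
        rw [abs_neg, abs_mul]
        have h3 : |ξ - (c : ℝ)| * |∑ k ∈ range (n + 1), (Q k : ℝ) * E k| ≤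
            |ξ - (c : ℝ)| * (N ^ 2 * T * (A * h) * δ) :=
          mul_le_mul_of_nonneg_left hQE (abs_nonneg _)
        have h4 : N * (A * h) * δ ≤ |ξ - (c : ℝ)| * (N * (A * h) * δ / D) := by
          have h5 : D * (N * (A * h) * δ / D) ≤ |ξ - (c : ℝ)| * (N * (A * h) * δ / D) :=
            mul_le_mul_of_nonneg_right hDc' (by positivity)
          have h6 : D * (N * (A * h) * δ / D) = N * (A * h) * δ := by field_simp
          linarith
        rw [mul_add]
        linarith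
      have e4 : |(ξ ^ j - (c : ℝ) ^ j) * (- (∑ i ∈ range (n + 1), (Q i : ℝ) * e i) +
          (ξ - (c : ℝ)) * ∑ k ∈ range (n + 1), (Q k : ℝ) * E k)| ≤
          (2 * T) * (|ξ - (c : ℝ)| * (N * (A * h) * δ / D + N ^ 2 * T * (A * h) * δ)) := by
        rw [abs_mul]
        exact mul_le_mul e2 e3 (abs_nonneg _) (by positivity)
      refine (abs_add_le _ _).trans ((add_le_add e1 e4).trans ?_)
      have e5 : |ξ - (c : ℝ)| * ((N * (A * h) * T) * (N * T * δ)) +
          (2 * T) * (|ξ - (c : ℝ)| * (N * (A * h) * δ / D + N ^ 2 * T * (A * h) * δ)) =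
          |ξ - (c : ℝ)| * (((3 * N ^ 2 * T ^ 2 + 2 * T * N / D) * A) * h * δ) := by
        field_simp; ring
      rw [e5]
      apply mul_le_mul_of_nonneg_left _ (abs_nonneg _)
      apply mul_le_mul_of_nonneg_right _ hδ0
      apply mul_le_mul_of_nonneg_right _ (by linarith)
      rw [hK]
      have : 0 ≤ 2 * (N + N ^ 2 * T ^ 2) * A + (N * T + N + N ^ 2 * T ^ 2) * A / D := by positivity
      linarith
    have h3 := le_of_mul_le_mul_left h2 hξc0
    have h4 : ξ ^ j * (- B) = ξ ^ j * (-B) := rfl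
    exact h3
  · have h0 : (((∑ k ∈ range (n + 1), Q k * (c : ℤ) ^ k) *
      (∑ i ∈ range 0, (c : ℤ) ^ (0 - 1 - i) * x i) -
      (c : ℤ) ^ 0 * ∑ k ∈ range (n + 1), Q k * ∑ i ∈ range k, (c : ℤ) ^ (k - 1 - i) * x i : ℤ) : ℝ)
      = - B := by
      rw [hBdef, hAAdef]; push_cast; simp
    rw [h0]
    have h1 := (key 0).2
    have h2 : |ξ - (c : ℝ)| * |(-B)| ≥ q / 2 := by
      rw [← abs_mul, h1]
      have e1 : |(q : ℝ) * Qc| ≥ q := by
        rw [abs_mul, abs_of_pos hq0]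
        nlinarith
      have e2 : |(∑ i ∈ range (n + 1), (Q i : ℝ) * e i) -
          (ξ - (c : ℝ)) * ∑ k ∈ range (n + 1), (Q k : ℝ) * E k| ≤ q / 2 := by
        refine (abs_sub _ _).trans ?_
        rw [abs_mul]
        have h3 : |ξ - (c : ℝ)| * |∑ k ∈ range (n + 1), (Q k : ℝ) * E k| ≤
            T * (N ^ 2 * T * (A * h) * δ) :=
          mul_le_mul hξcT hQE (abs_nonneg _) hT0.le
        have h4 : N * (A * h) * δ + T * (N ^ 2 * T * (A * h) * δ) ≤ q / 2 := by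
          have h5 : 2 * (N * (A * h) * δ + T * (N ^ 2 * T * (A * h) * δ)) =
            (2 * (N + N ^ 2 * T ^ 2) * A) * h * δ := by ring
          have h6 : (2 * (N + N ^ 2 * T ^ 2) * A) * h * δ ≤ K * h * δ := by
            apply mul_le_mul_of_nonneg_right _ hδ0
            apply mul_le_mul_of_nonneg_right _ (by linarith)
            rw [hK]
            have : 0 ≤ (3 * N ^ 2 * T ^ 2 + 2 * T * N / D) * A +
              (N * T + N + N ^ 2 * T ^ 2) * A / D := by positivity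
            linarith
          linarith
        linarith
      have e3 : (q : ℝ) * Qc + (∑ i ∈ range (n + 1), (Q i : ℝ) * e i) -
          (ξ - (c : ℝ)) * ∑ k ∈ range (n + 1), (Q k : ℝ) * E k = (q : ℝ) * Qc -
          (-((∑ i ∈ range (n + 1), (Q i : ℝ) * e i) -
          (ξ - (c : ℝ)) * ∑ k ∈ range (n + 1), (Q k : ℝ) * E k)) := by ring
      rw [e3]
      have e4 := abs_sub_abs_le_abs_sub ((q : ℝ) * Qc)
        (-((∑ i ∈ range (n + 1), (Q i : ℝ) * e i) -
          (ξ - (c : ℝ)) * ∑ k ∈ range (n + 1), (Q k : ℝ) * E k))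
      rw [abs_neg] at e4
      linarith
    have h3 : |ξ - (c : ℝ)| * |(-B)| ≤ T * |(-B)| :=
      mul_le_mul_of_nonneg_right hξcT (abs_nonneg _)
    have h4 : (q : ℝ) / 2 ≤ T * |(-B)| := by linarith
    rw [div_mul_eq_mul_div, one_mul, div_le_iff₀ (by positivity)]
    linarith
  · have h0 : (((∑ k ∈ range (n + 1), Q k * (c : ℤ) ^ k) *
      (∑ i ∈ range 0, (c : ℤ) ^ (0 - 1 - i) * x i) -
      (c : ℤ) ^ 0 * ∑ k ∈ range (n + 1), Q k * ∑ i ∈ range k, (c : ℤ) ^ (k - 1 - i) * x i : ℤ) : ℝ)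
      = - B := by
      rw [hBdef, hAAdef]; push_cast; simp
    rw [h0]
    have h1 := (key 0).2
    have h2 : |ξ - (c : ℝ)| * |(-B)| ≤ (N * T + N + N ^ 2 * T ^ 2) * A * (q * h) := by
      rw [← abs_mul, h1]
      have e1 : |(q : ℝ) * Qc| ≤ q * (N * (A * h) * T) := by
        rw [abs_mul, abs_of_pos hq0]
        exact mul_le_mul_of_nonneg_left hQcle hq0.le
      have e3 : |ξ - (c : ℝ)| * |∑ k ∈ range (n + 1), (Q k : ℝ) * E k| ≤
            T * (N ^ 2 * T * (A * h) * δ) :=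
          mul_le_mul hξcT hQE (abs_nonneg _) hT0.le
      have e5 : N * (A * h) * δ ≤ N * A * (q * h) := by
        have h7 : N * (A * h) * δ ≤ N * (A * h) * q :=
          mul_le_mul_of_nonneg_left (hδ1.trans hq1) (by positivity)
        calc N * (A * h) * δ ≤ N * (A * h) * q := h7
          _ = N * A * (q * h) := by ring
      have e6 : T * (N ^ 2 * T * (A * h) * δ) ≤ N ^ 2 * T ^ 2 * A * (q * h) := by
        have h7 : T * (N ^ 2 * T * (A * h)) * δ ≤ T * (N ^ 2 * T * (A * h)) * q :=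
          mul_le_mul_of_nonneg_left (hδ1.trans hq1) (by positivity)
        calc T * (N ^ 2 * T * (A * h) * δ) = T * (N ^ 2 * T * (A * h)) * δ := by ring
          _ ≤ T * (N ^ 2 * T * (A * h)) * q := h7
          _ = N ^ 2 * T ^ 2 * A * (q * h) := by ring
      refine (abs_sub _ _).trans ?_
      rw [abs_mul (ξ - (c : ℝ))]
      have e7 := abs_add_le ((q : ℝ) * Qc) (∑ i ∈ range (n + 1), (Q i : ℝ) * e i)
      have e8 : (N * T + N + N ^ 2 * T ^ 2) * A * (q * h) = q * (N * (A * h) * T) +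
        N * A * (q * h) + N ^ 2 * T ^ 2 * A * (q * h) := by ring
      linarith
    have h3 : D * |(-B)| ≤ |ξ - (c : ℝ)| * |(-B)| :=
      mul_le_mul_of_nonneg_right hDc' (abs_nonneg _)
    have h4 : |(-B)| ≤ ((N * T + N + N ^ 2 * T ^ 2) * A / D) * (q * h) := by
      rw [div_mul_eq_mul_div, le_div_iff₀ hD]
      linarith
    refine h4.trans ?_
    apply mul_le_mul_of_nonneg_right _ (by positivity)
    rw [hK]
    have : 0 ≤ (3 * N ^ 2 * T ^ 2 + 2 * T * N / D) * A + 2 * (N + N ^ 2 * T ^ 2) * A := by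
      positivity
    linarith

/-- The set of good denominators. -/
def S (n : ℕ) (ξ l : ℝ) : Set ℕ := {q : ℕ | 0 < q ∧ ∀ j ∈ Finset.Icc 1 n,
  |(q : ℝ) * ξ ^ j - ((round ((q : ℝ) * ξ ^ j) : ℤ) : ℝ)| ≤ (q : ℝ) ^ (-l)}

theorem S_infinite_of_nonpos (n : ℕ) (ξ l : ℝ) (hl : l ≤ 0) : (S n ξ l).Infinite := by
  refine (Set.Ioi_infinite 0).mono ?_
  intro q hq
  rw [Set.mem_Ioi] at hq
  refine ⟨hq, fun j _ => ?_⟩
  have h1 : (1 : ℝ) ≤ (q : ℝ) ^ (-l) := Real.one_le_rpow (by exact_mod_cast hq) (by linarith)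
  have h2 := abs_sub_round ((q : ℝ) * ξ ^ j)
  linarith

/-- Passage from `n` to `n + 1`. -/
theorem step (n : ℕ) (hn : 1 ≤ n) (ξ : ℝ) (hξ : Irrational ξ) (l l' : ℝ)
    (hinf : (S n ξ l).Infinite) (h : ((n : ℝ) + 1) * (1 + l') < n * (1 + l)) :
    (S (n + 1) ξ l').Infinite := by
  by_cases hl' : l' ≤ 0
  · exact S_infinite_of_nonpos _ _ _ hl'
  push Not at hl'
  have hnr : (1 : ℝ) ≤ n := by exact_mod_cast hn
  have hn0 : (0 : ℝ) < n := by linarith
  obtain ⟨K, a, hK, ha, hcore⟩ := core n hn ξ hξ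
  obtain ⟨η, hηdef⟩ : ∃ η : ℝ, η = l - 1 / n - (1 + 1 / n) * l' := ⟨_, rfl⟩
  have hη : 0 < η := by
    have h1 : n * η = n * (1 + l) - ((n : ℝ) + 1) * (1 + l') := by
      rw [hηdef]; field_simp; ring
    have h2 : 0 < n * η := by rw [h1]; linarith
    exact pos_of_mul_pos_right h2 hn0.le
  have hl1 : (1 : ℝ) / n < l := by
    have : 0 < (1 + 1 / (n : ℝ)) * l' := by positivity
    linarith
  have hl0 : 0 < l := lt_trans (by positivity) hl1
  apply Set.infinite_of_forall_exists_gt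
  intro M
  obtain ⟨q0, hq0⟩ := Filter.eventually_atTop.1
    ((tendsto_rpow_atTop hη).eventually_ge_atTop (K * K ^ l'))
  obtain ⟨q, hqS, hqbig⟩ := hinf.exists_gt (⌈max (max K ((M + 1) / a)) q0⌉₊)
  have hqb : max (max K ((M + 1) / a)) q0 < q := (Nat.le_ceil _).trans_lt (by exact_mod_cast hqbig)
  have hqK : K < q := ((le_max_left _ _).trans (le_max_left _ _)).trans_lt hqb
  have hqM : (M + 1) / a < q := ((le_max_right _ _).trans (le_max_left _ _)).trans_lt hqb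
  have hqq : q0 < q := (le_max_right _ _).trans_lt hqb
  obtain ⟨hqpos, happ⟩ := hqS
  have hqr : (0 : ℝ) < q := by exact_mod_cast hqpos
  have hq1 : (1 : ℝ) ≤ q := by exact_mod_cast hqpos
  have hδ0 : 0 ≤ (q : ℝ) ^ (-l) := by positivity
  have hδ1 : (q : ℝ) ^ (-l) ≤ 1 := Real.rpow_le_one_of_one_le_of_nonpos hq1 (by linarith)
  have hprod : (q : ℝ) ^ ((1 : ℝ) / n) * (q : ℝ) ^ (-l) = (q : ℝ) ^ (1 / n - l) := by
    rw [← Real.rpow_add hqr]; congr 1
  have hsmall : K * (q : ℝ) ^ ((1 : ℝ) / n) * (q : ℝ) ^ (-l) ≤ q := by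
    rw [mul_assoc, hprod]
    have h1 : (q : ℝ) ^ (1 / n - l) ≤ 1 :=
      Real.rpow_le_one_of_one_le_of_nonpos hq1 (by linarith)
    nlinarith
  obtain ⟨y, hy1, hy2, hy3⟩ := hcore q ((q : ℝ) ^ (-l)) hqpos hδ0 hδ1 happ hsmall
  have hnat : (((y 0).natAbs : ℕ) : ℝ) = |(y 0 : ℝ)| := by
    rw [Nat.cast_natAbs]; push_cast; rfl
  have hM : (M : ℝ) + 1 < |(y 0 : ℝ)| := by
    rw [div_lt_iff₀ ha] at hqM
    linarith
  have hM0 : (0 : ℝ) ≤ M := Nat.cast_nonneg M
  refine ⟨(y 0).natAbs, ⟨?_, ?_⟩, ?_⟩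
  · have : (0 : ℝ) < (((y 0).natAbs : ℕ) : ℝ) := by rw [hnat]; linarith
    exact_mod_cast this
  · intro j hj
    rw [hnat]
    have h1 : |(|(y 0 : ℝ)|) * ξ ^ j - ((round ((|(y 0 : ℝ)|) * ξ ^ j) : ℤ) : ℝ)| ≤
        |(y j : ℝ) - ξ ^ j * (y 0 : ℝ)| := by
      rcases le_or_gt 0 (y 0 : ℝ) with h0 | h0
      · rw [abs_of_nonneg h0]
        refine (round_le _ (y j)).trans (le_of_eq ?_)
        rw [abs_sub_comm]
        congr 1
        ring
      · rw [abs_of_neg h0]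
        refine (round_le _ (-(y j))).trans (le_of_eq ?_)
        congr 1
        push_cast
        ring
    refine h1.trans ((hy1 j hj).trans ?_)
    have hy0 : 0 < |(y 0 : ℝ)| := by linarith
    have h2 : (K * (q * (q : ℝ) ^ ((1 : ℝ) / n))) ^ (-l') ≤ |(y 0 : ℝ)| ^ (-l') :=
      Real.rpow_le_rpow_of_nonpos hy0 hy3 (by linarith)
    refine le_trans ?_ h2
    rw [mul_assoc, hprod]
    have h3 : (q : ℝ) * (q : ℝ) ^ ((1 : ℝ) / n) = (q : ℝ) ^ (1 + (1 : ℝ) / n) := by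
      rw [Real.rpow_add hqr, Real.rpow_one]
    rw [h3, Real.mul_rpow hK.le (by positivity), ← Real.rpow_mul hqr.le]
    have h4 : K * K ^ l' ≤ (q : ℝ) ^ η := hq0 q hqq.le
    have h5 : (q : ℝ) ^ η = (q : ℝ) ^ (l - 1 / n) * (q : ℝ) ^ ((1 + 1 / n) * -l') := by
      rw [← Real.rpow_add hqr]; congr 1; rw [hηdef]; ring
    have h6 : K ^ l' * K ^ (-l') = 1 := by rw [← Real.rpow_add hK]; simp
    have h7 : (q : ℝ) ^ (1 / n - l) * (q : ℝ) ^ (l - 1 / n) = 1 := by
      rw [← Real.rpow_add hqr]; simp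
    have hKl : 0 < K ^ (-l') := Real.rpow_pos_of_pos hK _
    have hql : 0 < (q : ℝ) ^ (1 / n - l) := Real.rpow_pos_of_pos hqr _
    calc K * (q : ℝ) ^ (1 / n - l) = (K * K ^ l') * (K ^ (-l') * (q : ℝ) ^ (1 / n - l)) := by
          calc K * (q : ℝ) ^ (1 / n - l) = K * 1 * (q : ℝ) ^ (1 / n - l) := by ring
            _ = K * (K ^ l' * K ^ (-l')) * (q : ℝ) ^ (1 / n - l) := by rw [h6]
            _ = _ := by ring
      _ ≤ (q : ℝ) ^ η * (K ^ (-l') * (q : ℝ) ^ (1 / n - l)) :=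
          mul_le_mul_of_nonneg_right h4 (by positivity)
      _ = K ^ (-l') * (q : ℝ) ^ ((1 + 1 / n) * -l') *
          ((q : ℝ) ^ (1 / n - l) * (q : ℝ) ^ (l - 1 / n)) := by rw [h5]; ring
      _ = K ^ (-l') * (q : ℝ) ^ ((1 + 1 / n) * -l') := by rw [h7, mul_one]
  · have h1 : (M : ℝ) < (((y 0).natAbs : ℕ) : ℝ) := by rw [hnat]; linarith
    exact_mod_cast h1

/-- Monotonicity of `n (1 + λ_n)`. -/
theorem main (n : ℕ) (hn : 1 ≤ n) (ξ : ℝ) (hξ : Irrational ξ) (k : ℕ) :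
    ∀ l l' : ℝ, (S n ξ l).Infinite → ((n : ℝ) + k) * (1 + l') < n * (1 + l) →
      (S (n + k) ξ l').Infinite := by
  induction k with
  | zero =>
    intro l l' hinf h
    have hnr : (1 : ℝ) ≤ n := by exact_mod_cast hn
    have hll : l' ≤ l := by
      push_cast at h
      rw [add_zero] at h
      have := lt_of_mul_lt_mul_left h (by linarith : (0 : ℝ) ≤ n)
      linarith
    refine hinf.mono ?_
    rintro q ⟨h1, h2⟩
    refine ⟨h1, fun j hj => (h2 j hj).trans ?_⟩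
    exact Real.rpow_le_rpow_of_exponent_le (by exact_mod_cast h1) (by linarith)
  | succ k ih =>
    intro l l' hinf h
    obtain ⟨v, hv1, hv2⟩ := exists_between h
    have hnk : (0 : ℝ) < (n : ℝ) + k := by
      have : (1 : ℝ) ≤ n := by exact_mod_cast hn
      positivity
    have h1 := ih l (v / (n + k) - 1) hinf (by
      have : ((n : ℝ) + k) * (1 + (v / (n + k) - 1)) = v := by field_simp; ring
      rw [this]; exact hv2)
    have h2 := step (n + k) (by omega) ξ hξ (v / (n + k) - 1) l' h1 (by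
      have : ((n : ℝ) + k) * (1 + (v / (n + k) - 1)) = v := by field_simp; ring
      push_cast at hv1 ⊢
      rw [this]
      refine lt_of_eq_of_lt ?_ hv1
      ring)
    exact h2

end Pool.Agent.TH870.Lam
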