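import Mathlib

set_option autoImplicit false
open Pointwise MeasureTheory Set Filter Topology

namespace Pool.Agent.TH870.CW

/-! Jung's theorem (the finite part follows the proof in S08190) -/

theorem jungFin {E : Type*} [NormedAddCommGroup E] [InnerProductSpace ℝ E] (R : Finset E) (D : ℝ)
    (hD : 0 ≤ D) (hR : ∀ x ∈ R, ∀ y ∈ R, dist x y ^ 2 ≤ 2 * D) (m : ℕ) (hm : R.card ≤ m) :
    ∃ c : E, ∀ x ∈ R, dist x c ^ 2 ≤ D * (1 - 1 / m) := by
  classical
  rcases R.eq_empty_or_nonempty with rfl | ⟨x0, hx0⟩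
  · exact ⟨0, by simp⟩
  let ι := {x // x ∈ R}
  let φ : (ι → ℝ) → ℝ := fun w => ∑ i, w i * ‖(i : E)‖ ^ 2 - ‖∑ i, w i • (i : E)‖ ^ 2
  have hφ : Continuous φ := by
    apply Continuous.sub
    · exact continuous_finsetSum _ (fun i _ => (continuous_apply i).mul continuous_const)
    · apply Continuous.pow
      apply Continuous.norm
      exact continuous_finsetSum _ (fun i _ => (continuous_apply i).smul continuous_const)
  have hcpt : IsCompact (stdSimplex ℝ ι) := isCompact_stdSimplex ℝ ι
  have hne : (stdSimplex ℝ ι).Nonempty := ⟨_, single_mem_stdSimplex ℝ (⟨x0, hx0⟩ : ι)⟩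
  obtain ⟨w, hw, hmax⟩ := hcpt.exists_isMaxOn hne hφ.continuousOn
  have hw0 : ∀ i, 0 ≤ w i := hw.1
  have hw1 : ∑ i, w i = 1 := hw.2
  set c : E := ∑ i, w i • (i : E) with hc
  set A : ℝ := ∑ i, w i * ‖(i : E)‖ ^ 2 with hA
  have hφw : φ w = A - ‖c‖ ^ 2 := rfl
  -- first-order condition
  have hfirst : ∀ j : ι, dist (j : E) c ^ 2 ≤ A - ‖c‖ ^ 2 := by
    intro j
    have key : ∀ ε : ℝ, 0 < ε → ε ≤ 1 →
        dist (j : E) c ^ 2 - (A - ‖c‖ ^ 2) ≤ ε * dist (j : E) c ^ 2 := by
      intro ε hε hε1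
      let w' : ι → ℝ := fun i => (1 - ε) * w i + ε * (Pi.single j (1 : ℝ) : ι → ℝ) i
      have hw' : w' ∈ stdSimplex ℝ ι := by
        refine ⟨fun i => ?_, ?_⟩
        · have h1 : 0 ≤ (Pi.single j (1 : ℝ) : ι → ℝ) i := by
            by_cases h : i = j
            · subst h; simp
            · simp [Pi.single_eq_of_ne h]
          have := hw0 i
          have h2 : 0 ≤ 1 - ε := by linarith
          positivity
        · simp only [w', Finset.sum_add_distrib, ← Finset.mul_sum, hw1]
          simp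
      have h1 := hmax hw'
      simp only [Set.mem_ofPred_eq] at h1
      have h2 : ∑ i, w' i * ‖(i : E)‖ ^ 2 = (1 - ε) * A + ε * ‖(j : E)‖ ^ 2 := by
        simp only [w', add_mul, Finset.sum_add_distrib]
        congr 1
        · rw [hA, Finset.mul_sum]
          exact Finset.sum_congr rfl (fun i _ => by ring)
        · rw [Finset.sum_eq_single j]
          · simp
          · intro i _ hi
            simp [Pi.single_eq_of_ne hi]
          · simp
      have h3 : ∑ i, w' i • (i : E) = (1 - ε) • c + ε • (j : E) := by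
        simp only [w', add_smul, Finset.sum_add_distrib]
        congr 1
        · rw [hc, Finset.smul_sum]
          exact Finset.sum_congr rfl (fun i _ => by rw [mul_smul])
        · rw [Finset.sum_eq_single j]
          · simp
          · intro i _ hi
            simp [Pi.single_eq_of_ne hi]
          · simp
      have h4 : φ w' ≤ φ w := h1
      have h5 : φ w' = (1 - ε) * A + ε * ‖(j : E)‖ ^ 2 - ‖(1 - ε) • c + ε • (j : E)‖ ^ 2 := by
        simp only [φ]
        rw [h2, h3]
      rw [h5, hφw] at h4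
      rw [@norm_add_sq_real E, inner_smul_left, inner_smul_right, norm_smul, norm_smul,
        mul_pow, mul_pow, Real.norm_eq_abs, Real.norm_eq_abs, sq_abs, sq_abs] at h4
      simp only [conj_trivial] at h4
      rw [dist_eq_norm, @norm_sub_sq_real E, real_inner_comm]
      have h6 : ε * (‖(j : E)‖ ^ 2 - 2 * inner ℝ c (j : E) + ‖c‖ ^ 2 - (A - ‖c‖ ^ 2)
          - ε * (‖(j : E)‖ ^ 2 - 2 * inner ℝ c (j : E) + ‖c‖ ^ 2)) ≤ 0 := by
        nlinarith [h4]
      have h7 := nonpos_of_mul_nonpos_right h6 hε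
      linarith
    by_contra hcon
    push Not at hcon
    have h1 := key 1 one_pos le_rfl
    have hD : 0 < dist (j : E) c ^ 2 := by linarith
    have h2 := key ((dist (j : E) c ^ 2 - (A - ‖c‖ ^ 2)) / (2 * dist (j : E) c ^ 2))
      (by apply div_pos; linarith; linarith)
      (by rw [div_le_one (by linarith)]; linarith)
    have h3 : (dist (j : E) c ^ 2 - (A - ‖c‖ ^ 2)) / (2 * dist (j : E) c ^ 2) * dist (j : E) c ^ 2
        = (dist (j : E) c ^ 2 - (A - ‖c‖ ^ 2)) / 2 := by
      generalize dist (j : E) c ^ 2 = D at hD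
      field_simp
    rw [h3] at h2
    linarith
  -- bound on the value
  have hsum : ∑ i, ∑ j, w i * w j * dist (i : E) (j : E) ^ 2 = 2 * (A - ‖c‖ ^ 2) := by
    have h1 : ∀ i j : ι, w i * w j * dist (i : E) (j : E) ^ 2
        = w j * (w i * ‖(i : E)‖ ^ 2) + w i * (w j * ‖(j : E)‖ ^ 2)
          - 2 * inner ℝ (w i • (i : E)) (w j • (j : E)) := by
      intro i j
      rw [dist_eq_norm, @norm_sub_sq_real E, inner_smul_left, inner_smul_right]
      simp only [conj_trivial]
      ring
    simp only [h1, Finset.sum_add_distrib, Finset.sum_sub_distrib]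
    have h2 : ∑ i, ∑ j, w j * (w i * ‖(i : E)‖ ^ 2) = A := by
      simp only [← Finset.sum_mul, hw1, one_mul, hA]
    have h3 : ∑ i, ∑ j, w i * (w j * ‖(j : E)‖ ^ 2) = A := by
      simp only [← Finset.mul_sum, ← Finset.sum_mul, hw1, one_mul, hA]
    have h4 : ∑ i, ∑ j, 2 * inner ℝ (w i • (i : E)) (w j • (j : E)) = 2 * ‖c‖ ^ 2 := by
      rw [← real_inner_self_eq_norm_sq c, hc, sum_inner, Finset.mul_sum]
      refine Finset.sum_congr rfl (fun i _ => ?_)
      rw [inner_sum, Finset.mul_sum]
    rw [h2, h3, h4]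
    ring
  have hbd : ∑ i, ∑ j, w i * w j * dist (i : E) (j : E) ^ 2 ≤ 2 * D - 2 * D * ∑ i, w i ^ 2 := by
    have h1 : ∀ i j : ι, w i * w j * dist (i : E) (j : E) ^ 2
        ≤ 2 * D * (w i * w j) - (if i = j then 2 * D * w i ^ 2 else 0) := by
      intro i j
      by_cases h : i = j
      · subst h
        simp
        exact le_of_eq (by ring)
      · simp only [h, if_false, sub_zero]
        have h2 := hR i i.2 j j.2
        have h3 : 0 ≤ w i * w j := mul_nonneg (hw0 i) (hw0 j)
        have h4 := mul_le_mul_of_nonneg_left h2 h3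
        linarith
    calc ∑ i, ∑ j, w i * w j * dist (i : E) (j : E) ^ 2
        ≤ ∑ i, ∑ j, (2 * D * (w i * w j) - (if i = j then 2 * D * w i ^ 2 else 0)) :=
          Finset.sum_le_sum (fun i _ => Finset.sum_le_sum (fun j _ => h1 i j))
      _ = 2 * D - 2 * D * ∑ i, w i ^ 2 := by
          have h5 : ∀ i : ι, ∑ j : ι, (if i = j then 2 * D * w i ^ 2 else 0) = 2 * D * w i ^ 2 := by
            intro i
            rw [Finset.sum_eq_single i]
            · rw [if_pos rfl]
            · intro j _ hj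
              rw [if_neg (fun h => hj h.symm)]
            · intro h
              exact absurd (Finset.mem_univ i) h
          have h6 : ∑ i : ι, ∑ j : ι, 2 * D * (w i * w j) = 2 * D := by
            simp only [← Finset.mul_sum, hw1, mul_one]
          simp only [Finset.sum_sub_distrib, h5, h6]
          rw [← Finset.mul_sum]
  have hcs := sq_sum_le_card_mul_sum_sq (s := (Finset.univ : Finset ι)) (f := w)
  rw [hw1, Finset.card_univ, Fintype.card_coe] at hcs
  have hm0 : (0:ℝ) < m := by
    have : 0 < R.card := Finset.card_pos.2 ⟨x0, hx0⟩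
    exact_mod_cast lt_of_lt_of_le this hm
  have hsq : 1 / (m : ℝ) ≤ ∑ i, w i ^ 2 := by
    rw [div_le_iff₀ hm0]
    have h1 : (R.card : ℝ) ≤ m := by exact_mod_cast hm
    have h2 : 0 ≤ ∑ i, w i ^ 2 := Finset.sum_nonneg fun i _ => sq_nonneg _
    nlinarith
  refine ⟨c, fun x hx => ?_⟩
  have h8 := hfirst ⟨x, hx⟩
  simp only at h8
  have h9 := mul_le_mul_of_nonneg_left hsq hD
  rw [mul_sub, mul_one]
  linarith

/-- **Jung's theorem** -/
theorem jung {d : ℕ} {C : Set (EuclideanSpace ℝ (Fin d))} {w : ℝ} (hw : 0 ≤ w)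
    (hdiam : ∀ x ∈ C, ∀ y ∈ C, dist x y ≤ w) :
    ∃ c, ∀ x ∈ C, dist x c ≤ w * Real.sqrt (d / (2 * (d + 1))) := by
  set r : ℝ := w * Real.sqrt (d / (2 * (d + 1))) with hr
  have hr0 : 0 ≤ r := by positivity
  have hr2 : r ^ 2 = w ^ 2 / 2 * (1 - 1 / ((d + 1 : ℕ) : ℝ)) := by
    rw [hr, mul_pow, Real.sq_sqrt (by positivity)]
    push_cast
    field_simp
    ring
  have h := Convex.helly_theorem_compact' (𝕜 := ℝ) (F := fun x : C => Metric.closedBall (x : EuclideanSpace ℝ (Fin d)) r)
    (fun x => convex_closedBall _ _) (fun x => isCompact_closedBall _ _) (by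
      intro I hI
      rw [finrank_euclideanSpace_fin] at hI
      classical
      obtain ⟨c, hc⟩ := jungFin (I.image (fun x : C => (x : EuclideanSpace ℝ (Fin d)))) (w ^ 2 / 2) (by positivity)
        (by
          intro x hx y hy
          obtain ⟨x', -, rfl⟩ := Finset.mem_image.1 hx
          obtain ⟨y', -, rfl⟩ := Finset.mem_image.1 hy
          have := hdiam x' x'.2 y' y'.2
          have h0 := dist_nonneg (x := (x' : EuclideanSpace ℝ (Fin d))) (y := y')
          nlinarith) (d + 1) (Finset.card_image_le.trans hI)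
      refine ⟨c, ?_⟩
      rw [mem_iInter₂]
      intro x hx
      rw [Metric.mem_closedBall, dist_comm]
      have h1 := hc x (Finset.mem_image_of_mem _ hx)
      rw [← hr2] at h1
      exact abs_le_of_sq_le_sq' h1 hr0 |>.2)
  obtain ⟨c, hc⟩ := h
  rw [mem_iInter] at hc
  refine ⟨c, fun x hx => ?_⟩
  have := hc ⟨x, hx⟩
  rw [Metric.mem_closedBall, dist_comm] at this
  exact this

end Pool.Agent.TH870.CW
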