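import Pool.Agent.TH870.CWa

set_option autoImplicit false
open Pointwise MeasureTheory Set Filter Topology
open scoped RealInnerProductSpace

namespace Pool.Agent.TH870.CW

variable {d : ℕ}

/-- for every unit vector `u` the two supporting hyperplanes orthogonal to `u` have distance `w` -/
def ConstantWidth (C : Set (EuclideanSpace ℝ (Fin d))) (w : ℝ) : Prop :=
  ∀ u : EuclideanSpace ℝ (Fin d), ‖u‖ = 1 →
    sSup ((fun x => ⟪u, x⟫) '' C) - sInf ((fun x => ⟪u, x⟫) '' C) = w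

lemma img_compact {C : Set (EuclideanSpace ℝ (Fin d))} (hC : IsCompact C)
    (u : EuclideanSpace ℝ (Fin d)) : IsCompact ((fun x => ⟪u, x⟫) '' C) :=
  hC.image (by fun_prop)

lemma diam_le {C : Set (EuclideanSpace ℝ (Fin d))} (hC : IsCompact C) {w : ℝ} (hw : 0 ≤ w)
    (h : ConstantWidth C w) : ∀ x ∈ C, ∀ y ∈ C, dist x y ≤ w := by
  intro x hx y hy
  rcases eq_or_ne x y with rfl | hne
  · simpa using hw
  have hn : 0 < ‖x - y‖ := norm_pos_iff.2 (sub_ne_zero.2 hne)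
  set u := (‖x - y‖)⁻¹ • (x - y) with hu
  have hu1 : ‖u‖ = 1 := by
    rw [hu, norm_smul, norm_inv, norm_norm, inv_mul_cancel₀ hn.ne']
  have h1 := h u hu1
  have h2 : ⟪u, x⟫ ≤ sSup ((fun x => ⟪u, x⟫) '' C) :=
    le_csSup (img_compact hC u).bddAbove ⟨x, hx, rfl⟩
  have h3 : sInf ((fun x => ⟪u, x⟫) '' C) ≤ ⟪u, y⟫ :=
    csInf_le (img_compact hC u).bddBelow ⟨y, hy, rfl⟩
  have h4 : ⟪u, x⟫ - ⟪u, y⟫ = ‖x - y‖ := by
    rw [← inner_sub_right, hu, real_inner_smul_left, real_inner_self_eq_norm_sq]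
    field_simp
  rw [dist_eq_norm]
  linarith

lemma ball_sub {C : Set (EuclideanSpace ℝ (Fin d))} (hC : IsCompact C) (hc : Convex ℝ C)
    (hne : C.Nonempty) {w r : ℝ} (h : ConstantWidth C w)
    {c : EuclideanSpace ℝ (Fin d)} (hr : ∀ x ∈ C, dist x c ≤ r) :
    ∀ p, dist p c ≤ w - r → p ∈ C := by
  intro p hp
  by_contra hpC
  obtain ⟨f, s, hf1, hf2⟩ := geometric_hahn_banach_closed_point hc hC.isClosed hpC
  set v := (InnerProductSpace.toDual ℝ (EuclideanSpace ℝ (Fin d))).symm f with hv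
  have hfv : ∀ x, f x = ⟪v, x⟫ := fun x => by rw [hv, InnerProductSpace.toDual_symm_apply]
  have hv0 : v ≠ 0 := by
    rintro h0
    obtain ⟨x, hx⟩ := hne
    have h1 := hf1 x hx
    rw [hfv, h0, inner_zero_left] at h1
    rw [hfv, h0, inner_zero_left] at hf2
    linarith
  have hn : 0 < ‖v‖ := norm_pos_iff.2 hv0
  set u := (‖v‖)⁻¹ • v with hu
  have hu1 : ‖u‖ = 1 := by rw [hu, norm_smul, norm_inv, norm_norm, inv_mul_cancel₀ hn.ne']
  have hui : ∀ x, ⟪u, x⟫ = ‖v‖⁻¹ * f x := fun x => by rw [hu, real_inner_smul_left, hfv]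
  have h1 := h u hu1
  have h2 : sSup ((fun x => ⟪u, x⟫) '' C) ≤ ‖v‖⁻¹ * s := by
    refine csSup_le (hne.image _) ?_
    rintro _ ⟨x, hx, rfl⟩
    simp only
    rw [hui]
    exact mul_le_mul_of_nonneg_left (hf1 x hx).le (by positivity)
  have h3 : ‖v‖⁻¹ * s < ⟪u, p⟫ := by
    rw [hui]
    exact mul_lt_mul_of_pos_left hf2 (by positivity)
  have h4 : ⟪u, c⟫ - r ≤ sInf ((fun x => ⟪u, x⟫) '' C) := by
    refine le_csInf (hne.image _) ?_
    rintro _ ⟨x, hx, rfl⟩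
    simp only
    have h5 : ⟪u, c - x⟫ ≤ ‖u‖ * ‖c - x‖ := real_inner_le_norm _ _
    rw [inner_sub_right, hu1, one_mul] at h5
    have h6 := hr x hx
    rw [dist_comm, dist_eq_norm] at h6
    linarith
  have h7 : ⟪u, p - c⟫ ≤ ‖u‖ * ‖p - c‖ := real_inner_le_norm _ _
  rw [inner_sub_right, hu1, one_mul] at h7
  rw [dist_eq_norm] at hp
  linarith

/-- Jung's radius -/
noncomputable def jr (d : ℕ) : ℝ := Real.sqrt (d / (2 * (d + 1)))

lemma jr_lt (d : ℕ) : jr d < 1 := by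
  unfold jr
  rw [Real.sqrt_lt' one_pos]
  rw [div_lt_iff₀ (by positivity)]
  have : (0:ℝ) ≤ d := Nat.cast_nonneg d
  linarith

lemma half_le_jr {d : ℕ} (hd : 1 ≤ d) : 1 / 2 ≤ jr d := by
  unfold jr
  refine Real.le_sqrt_of_sq_le ?_
  have : (1:ℝ) ≤ d := by exact_mod_cast hd
  rw [le_div_iff₀ (by positivity)]
  linarith

theorem asym {C : Set (EuclideanSpace ℝ (Fin d))} (hd : 1 ≤ d) (hC : IsCompact C) (hc : Convex ℝ C)
    (hne : C.Nonempty) {w : ℝ} (hw : 0 < w) (h : ConstantWidth C w) :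
    (interior C).Nonempty ∧ ∃ c ∈ C, ∀ y ∈ C, ∃ z ∈ C, c - y = (jr d / (1 - jr d)) • (z - c) := by
  obtain ⟨c, hcen⟩ := jung hw.le (diam_le hC hw.le h)
  have hb := ball_sub hC hc hne h hcen
  have hj1 := jr_lt d
  have hj2 := half_le_jr hd
  change ∀ x ∈ C, dist x c ≤ w * jr d at hcen
  change ∀ p, dist p c ≤ w - w * jr d → p ∈ C at hb
  have hpos : 0 < w - w * jr d := by nlinarith
  constructor
  · refine ⟨c, ?_⟩
    rw [mem_interior_iff_mem_nhds]
    refine Filter.mem_of_superset (Metric.closedBall_mem_nhds c hpos) ?_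
    intro p hp
    exact hb p hp
  · refine ⟨c, hb c (by rw [dist_self]; exact hpos.le), ?_⟩
    intro y hy
    have hj : 0 < 1 - jr d := by linarith
    have hj3 : 0 < jr d := by linarith
    have hα : 0 < jr d / (1 - jr d) := div_pos hj3 hj
    refine ⟨c + (jr d / (1 - jr d))⁻¹ • (c - y), hb _ ?_, ?_⟩
    · rw [dist_eq_norm, add_sub_cancel_left, norm_smul, Real.norm_eq_abs,
        abs_of_pos (inv_pos.2 hα), ← dist_eq_norm, dist_comm, inv_mul_le_iff₀ hα]
      have e : jr d / (1 - jr d) * (w - w * jr d) = w * jr d := by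
        field_simp
      rw [e]
      exact hcen y hy
    · rw [add_sub_cancel_left, smul_smul, mul_inv_cancel₀ hα.ne', one_smul]

end Pool.Agent.TH870.CW
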