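import Mathlib

set_option autoImplicit false
open Pointwise MeasureTheory Set Filter Topology

namespace Pool.Agent.TH870.FR

variable {n : ℕ}

/-- `{((1 - t) x - t z, t) : x, z ∈ K, 0 ≤ t ≤ 1}` -/
def E (K : Set (EuclideanSpace ℝ (Fin n))) : Set (EuclideanSpace ℝ (Fin n) × ℝ) :=
  {p | 0 ≤ p.2 ∧ p.2 ≤ 1 ∧ ∃ x ∈ K, ∃ z ∈ K, p.1 = (1 - p.2) • x - p.2 • z}

def Eh (K : Set (EuclideanSpace ℝ (Fin n))) (h : ℝ) : Set (EuclideanSpace ℝ (Fin n) × ℝ) :=
  {p | ∃ s, |p.2 - s| ≤ h ∧ (p.1, s) ∈ E K}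

def R (K : Set (EuclideanSpace ℝ (Fin n))) : Set (EuclideanSpace ℝ (Fin n)) := Prod.fst '' E K

noncomputable abbrev mu (n : ℕ) : Measure (EuclideanSpace ℝ (Fin n) × ℝ) :=
  (volume : Measure (EuclideanSpace ℝ (Fin n))).prod (volume : Measure ℝ)

lemma comb {K : Set (EuclideanSpace ℝ (Fin n))} (hc : Convex ℝ K) {a b : ℝ} (ha : 0 ≤ a)
    (hb : 0 ≤ b) {x y : EuclideanSpace ℝ (Fin n)} (hx : x ∈ K) (hy : y ∈ K) :
    ∃ z ∈ K, a • x + b • y = (a + b) • z := by
  rcases (add_nonneg ha hb).eq_or_lt with h | h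
  · have h1 : a = 0 := by linarith
    have h2 : b = 0 := by linarith
    exact ⟨x, hx, by simp [h1, h2]⟩
  · refine ⟨(a / (a + b)) • x + (b / (a + b)) • y, hc hx hy (by positivity) (by positivity)
      (by field_simp), ?_⟩
    rw [smul_add, smul_smul, smul_smul]
    congr 2 <;> field_simp

lemma E_compact {K : Set (EuclideanSpace ℝ (Fin n))} (hK : IsCompact K) : IsCompact (E K) := by
  have : E K = (fun q : (EuclideanSpace ℝ (Fin n) × EuclideanSpace ℝ (Fin n)) × ℝ =>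
      ((1 - q.2) • q.1.1 - q.2 • q.1.2, q.2)) '' ((K ×ˢ K) ×ˢ Icc (0:ℝ) 1) := by
    ext ⟨y, t⟩
    constructor
    · rintro ⟨h0, h1, x, hx, z, hz, h⟩
      exact ⟨((x, z), t), ⟨⟨hx, hz⟩, h0, h1⟩, by simp only; rw [← h]⟩
    · rintro ⟨⟨⟨x, z⟩, s⟩, ⟨⟨hx, hz⟩, h0, h1⟩, h⟩
      simp only [Prod.mk.injEq] at h
      obtain ⟨h2, rfl⟩ := h
      exact ⟨h0, h1, x, hx, z, hz, h2.symm⟩
  rw [this]
  refine ((hK.prod hK).prod isCompact_Icc).image ?_
  fun_prop

lemma Eh_compact {K : Set (EuclideanSpace ℝ (Fin n))} (hK : IsCompact K) (h : ℝ) :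
    IsCompact (Eh K h) := by
  have : Eh K h = (fun q : (EuclideanSpace ℝ (Fin n) × ℝ) × ℝ => (q.1.1, q.1.2 + q.2)) ''
      (E K ×ˢ Icc (-h) h) := by
    ext ⟨y, t⟩
    constructor
    · rintro ⟨s, hs, hE⟩
      have := abs_le.1 hs
      exact ⟨((y, s), t - s), ⟨hE, this.1, this.2⟩, by simp⟩
    · rintro ⟨⟨⟨x, s⟩, u⟩, ⟨hE, h0, h1⟩, h⟩
      simp only [Prod.mk.injEq] at h
      obtain ⟨rfl, rfl⟩ := h
      exact ⟨s, by simp only [add_sub_cancel_left]; exact abs_le.2 ⟨h0, h1⟩, hE⟩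
  rw [this]
  refine ((E_compact hK).prod isCompact_Icc).image ?_
  fun_prop

lemma E_convex {K : Set (EuclideanSpace ℝ (Fin n))} (hc : Convex ℝ K) : Convex ℝ (E K) := by
  rintro ⟨y1, t1⟩ ⟨h1, h1', x1, hx1, z1, hz1, e1⟩ ⟨y2, t2⟩ ⟨h2, h2', x2, hx2, z2, hz2, e2⟩ a b ha hb hab
  simp only at h1 h1' h2 h2' e1 e2
  obtain ⟨x, hx, ex⟩ := comb hc (mul_nonneg ha (sub_nonneg.2 h1')) (mul_nonneg hb (sub_nonneg.2 h2'))
    hx1 hx2
  obtain ⟨z, hz, ez⟩ := comb hc (mul_nonneg ha h1) (mul_nonneg hb h2) hz1 hz2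
  refine ⟨?_, ?_, x, hx, z, hz, ?_⟩
  · simp only [Prod.snd_add, Prod.smul_snd, smul_eq_mul]
    positivity
  · simp only [Prod.snd_add, Prod.smul_snd, smul_eq_mul]
    nlinarith
  · simp only [Prod.fst_add, Prod.smul_fst, Prod.snd_add, Prod.smul_snd, smul_eq_mul]
    have e3 : (1 - (a * t1 + b * t2)) = a * (1 - t1) + b * (1 - t2) := by linear_combination -hab
    rw [e3, ← ex, ← ez, e1, e2]
    module

lemma R_compact {K : Set (EuclideanSpace ℝ (Fin n))} (hK : IsCompact K) : IsCompact (R K) :=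
  (E_compact hK).image continuous_fst

lemma R_convex {K : Set (EuclideanSpace ℝ (Fin n))} (hc : Convex ℝ K) : Convex ℝ (R K) :=
  (E_convex hc).linear_image (LinearMap.fst ℝ _ _)

lemma fiber {K : Set (EuclideanSpace ℝ (Fin n))} (hK : IsCompact K) (hc : Convex ℝ K) {h : ℝ}
    (hh : 0 ≤ h) {y : EuclideanSpace ℝ (Fin n)} (hy : y ∈ R K) :
    volume (Prod.mk y ⁻¹' E K) + ENNReal.ofReal (2 * h) ≤ volume (Prod.mk y ⁻¹' Eh K h) := by
  set T : Set ℝ := Prod.mk y ⁻¹' E K with hT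
  have hne : T.Nonempty := by
    obtain ⟨⟨y', t⟩, hE, rfl⟩ := hy
    exact ⟨t, hE⟩
  have hTc : IsCompact T := by
    have hcl : IsClosed T := (E_compact hK).isClosed.preimage (by fun_prop)
    refine isCompact_Icc.of_isClosed_subset hcl (s := Icc (0:ℝ) 1) ?_
    rintro t ⟨h0, h1, -⟩
    exact ⟨h0, h1⟩
  have hTconv : Convex ℝ T := by
    intro t1 h1 t2 h2 a b ha hb hab
    have := E_convex hc h1 h2 ha hb hab
    show (y, a • t1 + b • t2) ∈ E K
    convert this using 1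
    ext1
    · simp [← add_smul, hab]
    · simp
  have ha := hTc.sInf_mem hne
  have hb := hTc.sSup_mem hne
  set a := sInf T
  set b := sSup T
  have hab : a ≤ b := csInf_le hTc.bddBelow hb
  have hsub : T ⊆ Icc a b := fun t ht => ⟨csInf_le hTc.bddBelow ht, le_csSup hTc.bddAbove ht⟩
  have hsub2 : Icc (a - h) (b + h) ⊆ Prod.mk y ⁻¹' Eh K h := by
    intro u hu
    have hs : max a (min u b) ∈ T :=
      hTconv.ordConnected.out ha hb ⟨le_max_left _ _, max_le hab (min_le_right _ _)⟩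
    refine ⟨max a (min u b), ?_, hs⟩
    simp only
    rcases le_total u b with h1 | h1
    · rw [min_eq_left h1]
      rcases le_total a u with h2 | h2
      · rw [max_eq_right h2]; simpa using hh
      · rw [max_eq_left h2]; rw [abs_le]; constructor <;> linarith [hu.1]
    · rw [min_eq_right h1, max_eq_right hab]; rw [abs_le]; constructor <;> linarith [hu.2]
  calc volume T + ENNReal.ofReal (2 * h) ≤ volume (Icc a b) + ENNReal.ofReal (2 * h) := by
        gcongr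
    _ = volume (Icc (a - h) (b + h)) := by
        rw [Real.volume_Icc, Real.volume_Icc, ← ENNReal.ofReal_add (by linarith) (by linarith)]
        congr 1; ring
    _ ≤ _ := measure_mono hsub2

lemma lower {K : Set (EuclideanSpace ℝ (Fin n))} (hK : IsCompact K) (hc : Convex ℝ K) {h : ℝ}
    (hh : 0 ≤ h) : mu n (E K) + ENNReal.ofReal (2 * h) * volume (R K) ≤ mu n (Eh K h) := by
  have hEm := (E_compact hK).measurableSet
  rw [Measure.prod_apply hEm, Measure.prod_apply (Eh_compact hK h).measurableSet]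
  have h1 : ENNReal.ofReal (2 * h) * volume (R K) =
      ∫⁻ y, (R K).indicator (fun _ => ENNReal.ofReal (2 * h)) y := by
    rw [lintegral_indicator_const (R_compact hK).measurableSet]
  rw [h1, ← lintegral_add_left (measurable_measure_prodMk_left hEm)]
  refine lintegral_mono fun y => ?_
  by_cases hy : y ∈ R K
  · simp only [indicator_of_mem hy]
    exact fiber hK hc hh hy
  · simp only [indicator_of_notMem hy, add_zero]
    have : Prod.mk y ⁻¹' E K = ∅ := by
      ext t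
      simp only [mem_preimage, mem_empty_iff_false, iff_false]
      exact fun ht => hy ⟨(y, t), ht, rfl⟩
    rw [this]; simp

end Pool.Agent.TH870.FR
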