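import Pool.Agent.TH870.FRa
import Pool.Agent.TH421.GO.Euc
import Pool.Agent.TH650.GB.Core

set_option autoImplicit false
open Pointwise MeasureTheory Set Filter Topology

namespace Pool.Agent.TH870.FR

variable {n : ℕ}

/-- `a x + b z ∈ A K` for `a + b ≤ A`, `0, x, z ∈ K` -/
lemma mem_smul {K : Set (EuclideanSpace ℝ (Fin n))} (hc : Convex ℝ K) (h0 : (0 : EuclideanSpace ℝ (Fin n)) ∈ K)
    {a b A : ℝ} (ha : 0 ≤ a) (hb : 0 ≤ b) (hA : a + b ≤ A) {x z : EuclideanSpace ℝ (Fin n)}
    (hx : x ∈ K) (hz : z ∈ K) : ∃ w ∈ K, a • x + b • z = A • w := by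
  obtain ⟨w, hw, e⟩ := comb hc ha hb hx hz
  obtain ⟨w', hw', e'⟩ := comb hc (add_nonneg ha hb) (sub_nonneg.2 hA) hw h0
  refine ⟨w', hw', ?_⟩
  rw [e]
  rw [smul_zero, add_zero] at e'
  rw [e']; congr 1; ring

lemma upper_sub {K : Set (EuclideanSpace ℝ (Fin n))} (hc : Convex ℝ K)
    (h0 : (0 : EuclideanSpace ℝ (Fin n)) ∈ K) {α : ℝ} (hα : 1 ≤ α)
    (hneg : ∀ y ∈ K, ∃ z ∈ K, -y = α • z) {h : ℝ} (hh : 0 < h) {κ : ℝ} (hκ : κ * (α + 1) = α - 1) :
    Eh K h ⊆ ((fun p => p + ((0 : EuclideanSpace ℝ (Fin n)), -(κ * h))) '' ((1 + 2 * κ * h) • E K)) ∪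
      (((1 + (α - 1) * h) • K) ×ˢ Icc (-h) (-(κ * h)) ∪
        (-((1 + (α - 1) * h) • K)) ×ˢ Icc (1 + κ * h) (1 + h)) := by
  have hκ0 : 0 ≤ κ := by
    by_contra hneg
    push Not at hneg
    nlinarith
  rintro ⟨y, t⟩ ⟨t0, ht, ht0, ht1, x, hx, z, hz, e⟩
  simp only at ht ht0 ht1 e
  have hts := abs_le.1 ht
  obtain ⟨x', hx', ex⟩ := hneg x hx
  obtain ⟨z', hz', ez⟩ := hneg z hz
  have ex2 : x = -(α • x') := by rw [← ex, neg_neg]
  have ez2 : z = -(α • z') := by rw [← ez, neg_neg]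
  rcases lt_or_ge t (-(κ * h)) with hlow | hlow
  · -- lower cap
    right; left
    refine ⟨?_, ?_, hlow.le⟩
    · have hκh := mul_nonneg hκ0 hh.le
      have ht0h : t0 ≤ h := by linarith
      have hmul := mul_le_mul_of_nonneg_left ht0h (by linarith : (0:ℝ) ≤ α - 1)
      obtain ⟨w, hw, ew⟩ := mem_smul hc h0 (sub_nonneg.2 ht1) (mul_nonneg ht0 (by linarith : (0:ℝ) ≤ α))
        (A := 1 + (α - 1) * h) (by nlinarith) hx hz'
      refine ⟨w, hw, ?_⟩
      simp only
      rw [← ew, e]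
      conv_rhs => rw [ez2]
      module
    · show -h ≤ t
      linarith
  rcases lt_or_ge (1 + κ * h) t with hup | hup
  · right; right
    refine ⟨?_, hup.le, ?_⟩
    · have hκh := mul_nonneg hκ0 hh.le
      have ht0h : 1 - t0 ≤ h := by linarith
      have hmul := mul_le_mul_of_nonneg_left ht0h (by linarith : (0:ℝ) ≤ α - 1)
      obtain ⟨w, hw, ew⟩ := mem_smul hc h0 (mul_nonneg (sub_nonneg.2 ht1) (by linarith : (0:ℝ) ≤ α)) ht0
        (A := 1 + (α - 1) * h) (by nlinarith) hx' hz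
      refine ⟨w, hw, ?_⟩
      simp only
      rw [← ew, e]
      conv_rhs => rw [ex2]
      module
    · show t ≤ 1 + h
      linarith
  · left
    have hρ : 0 < 1 + 2 * κ * h := by positivity
    -- the section
    have key : ∃ u ∈ K, ∃ v ∈ K, y = (1 + κ * h - t) • u - (t + κ * h) • v := by
      rcases le_total t0 t with hle | hle
      · rcases le_total (t - t0) (κ * h) with hs | hs
        · obtain ⟨u, hu, eu⟩ := mem_smul hc h0 (sub_nonneg.2 ht1) le_rfl
            (A := 1 + κ * h - t) (by linarith) hx hx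
          obtain ⟨v, hv, ev⟩ := mem_smul hc h0 ht0 le_rfl
            (A := t + κ * h) (by nlinarith) hz hz
          refine ⟨u, hu, v, hv, ?_⟩
          rw [← eu, ← ev, e]; module
        · obtain ⟨v, hv, ev⟩ := mem_smul hc h0 ht0 (mul_nonneg (sub_nonneg.2 hs) (by linarith : (0:ℝ) ≤ α))
            (A := t + κ * h) (by nlinarith) hz hx'
          refine ⟨x, hx, v, hv, ?_⟩
          rw [← ev, e]
          have : (1 - t0) • x = (1 + κ * h - t) • x + (t - t0 - κ * h) • x := by module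
          rw [this]
          nth_rw 2 [ex2]
          module
      · rcases le_total (t0 - t) (κ * h) with hs | hs
        · obtain ⟨u, hu, eu⟩ := mem_smul hc h0 (sub_nonneg.2 ht1) le_rfl
            (A := 1 + κ * h - t) (by nlinarith) hx hx
          obtain ⟨v, hv, ev⟩ := mem_smul hc h0 ht0 le_rfl
            (A := t + κ * h) (by nlinarith) hz hz
          refine ⟨u, hu, v, hv, ?_⟩
          rw [← eu, ← ev, e]; module
        · obtain ⟨u, hu, eu⟩ := mem_smul hc h0 (sub_nonneg.2 ht1)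
            (mul_nonneg (sub_nonneg.2 hs) (by linarith : (0:ℝ) ≤ α))
            (A := 1 + κ * h - t) (by nlinarith) hx hz'
          refine ⟨u, hu, z, hz, ?_⟩
          rw [← eu, e]
          have : t0 • z = (t + κ * h) • z + (t0 - t - κ * h) • z := by module
          rw [this]
          nth_rw 2 [ez2]
          module
    obtain ⟨u, hu, v, hv, e'⟩ := key
    refine ⟨(y, t + κ * h), ?_, ?_⟩
    · rw [mem_smul_set_iff_inv_smul_mem₀ hρ.ne']
      refine ⟨?_, ?_, u, hu, v, hv, ?_⟩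
      · simp only [Prod.smul_snd, smul_eq_mul]
        exact mul_nonneg (inv_nonneg.2 hρ.le) (by linarith)
      · simp only [Prod.smul_snd, smul_eq_mul]
        rw [inv_mul_le_iff₀ hρ]; linarith
      · simp only [Prod.smul_snd, Prod.smul_fst, smul_eq_mul]
        rw [e', smul_sub, smul_smul, smul_smul]
        congr 2
        field_simp
        ring
    · simp

lemma upper {K : Set (EuclideanSpace ℝ (Fin n))} (hc : Convex ℝ K)
    (h0 : (0 : EuclideanSpace ℝ (Fin n)) ∈ K) {α : ℝ} (hα : 1 ≤ α)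
    (hneg : ∀ y ∈ K, ∃ z ∈ K, -y = α • z) {h : ℝ} (hh : 0 < h) {κ : ℝ} (hκ : κ * (α + 1) = α - 1) :
    mu n (Eh K h) ≤ ENNReal.ofReal ((1 + 2 * κ * h) ^ (n + 1)) * mu n (E K) +
      ENNReal.ofReal (2 * (1 - κ) * h * (1 + (α - 1) * h) ^ n) * volume K := by
  have hκ0 : 0 ≤ κ := by
    by_contra hneg
    push Not at hneg
    nlinarith
  have hκ1 : κ ≤ 1 := by
    by_contra hneg
    push Not at hneg
    nlinarith
  have hρ : 0 < 1 + 2 * κ * h := by positivity
  have hσ : 0 < 1 + (α - 1) * h := by nlinarith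
  refine (measure_mono (upper_sub hc h0 hα hneg hh hκ)).trans ?_
  refine (measure_union_le _ _).trans ?_
  refine add_le_add ?_ ?_
  · rw [image_add_right, measure_preimage_add_right, Measure.addHaar_smul]
    rw [abs_of_nonneg (by positivity)]
    have : Module.finrank ℝ (EuclideanSpace ℝ (Fin n) × ℝ) = n + 1 := by
      rw [Module.finrank_prod]; simp
    rw [this]
  · refine (measure_union_le _ _).trans ?_
    rw [Measure.prod_prod, Measure.prod_prod, Measure.measure_neg, Measure.addHaar_smul,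
      Real.volume_Icc, Real.volume_Icc]
    rw [abs_of_nonneg (by positivity)]
    have hf : Module.finrank ℝ (EuclideanSpace ℝ (Fin n)) = n := by simp
    rw [hf]
    have e1 : -(κ * h) - -h = (1 - κ) * h := by ring
    have e2 : 1 + h - (1 + κ * h) = (1 - κ) * h := by ring
    rw [e1, e2]
    have h4 : 0 ≤ (1 - κ) * h := mul_nonneg (by linarith) hh.le
    have h5 : 0 ≤ (1 + (α - 1) * h) ^ n := by positivity
    have e3 : 2 * (1 - κ) * h * (1 + (α - 1) * h) ^ n =
        (1 + (α - 1) * h) ^ n * ((1 - κ) * h) + (1 + (α - 1) * h) ^ n * ((1 - κ) * h) := by ring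
    rw [e3]
    generalize (1 - κ) * h = c at h4 ⊢
    generalize (1 + (α - 1) * h) ^ n = d at h5 ⊢
    rw [ENNReal.ofReal_add (mul_nonneg h5 h4) (mul_nonneg h5 h4), ENNReal.ofReal_mul h5, add_mul]
    refine le_of_eq ?_
    ring

end Pool.Agent.TH870.FR
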