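import Pool.Agent.TH870.FRa
import Pool.Agent.TH421.GO.Euc
import Pool.Agent.TH650.GB.Core

set_option autoImplicit false
open Pointwise MeasureTheory Set Filter Topology

namespace Pool.Agent.TH870.FR

/-- `(j + 1) ∫ t^j (1-t)^(m+1) = (m + 1) ∫ t^(j+1) (1-t)^m` -/
lemma beta_step (j m : ℕ) :
    ((j : ℝ) + 1) * ∫ t in (0:ℝ)..1, (1 - t) ^ (m + 1) * t ^ j =
      ((m : ℝ) + 1) * ∫ t in (0:ℝ)..1, (1 - t) ^ m * t ^ (j + 1) := by
  have hd : ∀ t ∈ uIcc (0:ℝ) 1, HasDerivAt (fun t : ℝ => (1 - t) ^ (m + 1) * t ^ (j + 1))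
      (((j : ℝ) + 1) * ((1 - t) ^ (m + 1) * t ^ j) - ((m : ℝ) + 1) * ((1 - t) ^ m * t ^ (j + 1))) t := by
    intro t _
    have h1 : HasDerivAt (fun t : ℝ => (1 - t) ^ (m + 1)) (((m + 1 : ℕ) : ℝ) * (1 - t) ^ m * (-1)) t := by
      have := ((hasDerivAt_id t).const_sub 1).fun_pow (m + 1)
      simpa using this
    have h2 : HasDerivAt (fun t : ℝ => t ^ (j + 1)) (((j + 1 : ℕ) : ℝ) * t ^ j) t := by
      simpa using (hasDerivAt_pow (j + 1) t)
    have h3 := h1.fun_mul h2
    have e : (((m + 1 : ℕ) : ℝ) * (1 - t) ^ m * (-1)) * t ^ (j + 1) + (1 - t) ^ (m + 1) * (((j + 1 : ℕ) : ℝ) * t ^ j) =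
        ((j : ℝ) + 1) * ((1 - t) ^ (m + 1) * t ^ j) - ((m : ℝ) + 1) * ((1 - t) ^ m * t ^ (j + 1)) := by
      push_cast
      ring
    rw [e] at h3
    exact h3
  have hi := intervalIntegral.integral_eq_sub_of_hasDerivAt hd
    (Continuous.intervalIntegrable (by fun_prop) _ _)
  rw [intervalIntegral.integral_sub (Continuous.intervalIntegrable (by fun_prop) _ _)
    (Continuous.intervalIntegrable (by fun_prop) _ _), intervalIntegral.integral_const_mul,
    intervalIntegral.integral_const_mul] at hi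
  simp at hi
  linarith

lemma beta (n j : ℕ) (hj : j ≤ n) :
    (n.choose j : ℝ) * ∫ t in (0:ℝ)..1, (1 - t) ^ (n - j) * t ^ j = 1 / ((n : ℝ) + 1) := by
  induction j with
  | zero =>
    simp only [Nat.choose_zero_right, Nat.cast_one, Nat.sub_zero, pow_zero, mul_one, one_mul]
    have h := intervalIntegral.integral_comp_sub_left (fun x : ℝ => x ^ n) (a := 0) (b := 1) 1
    simp only [sub_self, sub_zero] at h
    rw [h, integral_pow]
    simp
  | succ j ih =>
    have ih' := ih (by omega)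
    obtain ⟨m, rfl⟩ : ∃ m, n = m + 1 + j := ⟨n - 1 - j, by omega⟩
    have e1 : m + 1 + j - j = m + 1 := by omega
    have e2 : m + 1 + j - (j + 1) = m := by omega
    rw [e1] at ih'
    rw [e2]
    have hs := beta_step j m
    have hch : ((m + 1 + j).choose (j + 1) : ℝ) * ((j : ℝ) + 1) =
        ((m + 1 + j).choose j : ℝ) * ((m : ℝ) + 1) := by
      have := Nat.choose_succ_right_eq (m + 1 + j) j
      rw [e1] at this
      exact_mod_cast this
    have hm : ((m : ℝ) + 1) ≠ 0 := by positivity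
    have hj1 : ((j : ℝ) + 1) ≠ 0 := by positivity
    rw [← ih']
    have h3 : ((m : ℝ) + 1) * (((m + 1 + j).choose (j + 1) : ℝ) * ∫ t in (0:ℝ)..1, (1 - t) ^ m * t ^ (j + 1)) =
        ((m : ℝ) + 1) * (((m + 1 + j).choose j : ℝ) * ∫ t in (0:ℝ)..1, (1 - t) ^ (m + 1) * t ^ j) := by
      calc _ = ((m + 1 + j).choose (j + 1) : ℝ) * (((m : ℝ) + 1) * ∫ t in (0:ℝ)..1, (1 - t) ^ m * t ^ (j + 1)) := by ring
        _ = ((m + 1 + j).choose (j + 1) : ℝ) * (((j : ℝ) + 1) * ∫ t in (0:ℝ)..1, (1 - t) ^ (m + 1) * t ^ j) := by rw [hs]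
        _ = (((m + 1 + j).choose (j + 1) : ℝ) * ((j : ℝ) + 1)) * ∫ t in (0:ℝ)..1, (1 - t) ^ (m + 1) * t ^ j := by ring
        _ = _ := by rw [hch]; ring
    exact mul_left_cancel₀ hm h3

/-- the polynomial of the unbalanced Rogers-Shephard inequality -/
noncomputable def pn (n : ℕ) (t : ℝ) : ℝ :=
  ∑ j ∈ Finset.range (n + 1), (n.choose j : ℝ) ^ 2 * (1 - t) ^ (n - j) * t ^ j

lemma pn_int (n : ℕ) : ∫ t in (0:ℝ)..1, pn n t = 2 ^ n / ((n : ℝ) + 1) := by
  unfold pn
  rw [intervalIntegral.integral_finsetSum (fun j _ => Continuous.intervalIntegrable (by fun_prop) _ _)]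
  have : ∀ j ∈ Finset.range (n + 1), ∫ t in (0:ℝ)..1, (n.choose j : ℝ) ^ 2 * (1 - t) ^ (n - j) * t ^ j =
      (n.choose j : ℝ) * (1 / ((n : ℝ) + 1)) := by
    intro j hj
    have hj' : j ≤ n := by simpa [Nat.lt_succ_iff] using hj
    rw [← beta n j hj']
    rw [← mul_assoc, ← pow_two, ← intervalIntegral.integral_const_mul]
    congr 1
    ext t; ring
  rw [Finset.sum_congr rfl this, ← Finset.sum_mul]
  have h2 : (∑ i ∈ Finset.range (n + 1), (n.choose i : ℝ)) = 2 ^ n := by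
    exact_mod_cast Nat.sum_range_choose n
  rw [h2]; ring

lemma volE {n : ℕ} {K : Set (EuclideanSpace ℝ (Fin n))} (hK : IsCompact K) (hc : Convex ℝ K)
    (hi : (interior K).Nonempty) :
    mu n (E K) ≤ ENNReal.ofReal (2 ^ n / ((n : ℝ) + 1)) * volume K := by
  rw [Measure.prod_apply_symm (E_compact hK).measurableSet]
  have hb : ∀ t : ℝ, volume ((fun y => (y, t)) ⁻¹' E K) ≤
      (Icc (0:ℝ) 1).indicator (fun t => ENNReal.ofReal (pn n t) * volume K) t := by
    intro t
    by_cases ht : t ∈ Icc (0:ℝ) 1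
    · rw [indicator_of_mem ht]
      have h1 := Pool.Agent.TH421.GO.upper_euc (fun n m v h => Pool.Agent.TH650.GB.core h) n K hK hc hi
        (1 - t) t (by linarith [ht.2]) ht.1
      refine le_trans (measure_mono ?_) h1
      rintro y ⟨-, -, x, hx, z, hz, e⟩
      simp only at e
      rw [e]
      exact Set.sub_mem_sub (Set.smul_mem_smul_set hx) (Set.smul_mem_smul_set hz)
    · rw [indicator_of_notMem ht]
      have : (fun y => (y, t)) ⁻¹' E K = ∅ := by
        ext y
        simp only [mem_preimage, mem_empty_iff_false, iff_false]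
        rintro ⟨h0, h1, -⟩
        exact ht ⟨h0, h1⟩
      rw [this]; simp
  refine (lintegral_mono hb).trans ?_
  rw [lintegral_indicator measurableSet_Icc]
  have hcont : Continuous (pn n) := by unfold pn; fun_prop
  rw [lintegral_mul_const _ (by fun_prop)]
  have hnn : ∀ t ∈ Icc (0:ℝ) 1, 0 ≤ pn n t := by
    intro t ht
    unfold pn
    refine Finset.sum_nonneg fun j _ => ?_
    have := ht.1
    have h2 : 0 ≤ 1 - t := by linarith [ht.2]
    positivity
  rw [← ofReal_integral_eq_lintegral_ofReal (hcont.integrableOn_Icc)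
    ((ae_restrict_iff' measurableSet_Icc).2 (Eventually.of_forall hnn))]
  rw [integral_Icc_eq_integral_Ioc, ← intervalIntegral.integral_of_le zero_le_one, pn_int]

end Pool.Agent.TH870.FR
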