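import Pool.Agent.TH870.FRb
import Pool.Agent.TH870.FRc

set_option autoImplicit false
open Pointwise MeasureTheory Set Filter Topology

namespace Pool.Agent.TH870.FR

variable {n : ℕ}

lemma limit_arg {A V r κ β : ℝ} {n : ℕ}
    (H : ∀ h : ℝ, 0 < h → A + 2 * h * r ≤ (1 + 2 * κ * h) ^ (n + 1) * A +
      2 * (1 - κ) * h * (1 + β * h) ^ n * V) :
    r ≤ κ * (n + 1) * A + (1 - κ) * V := by
  have hd : HasDerivAt (fun h : ℝ => (1 + 2 * κ * h) ^ (n + 1) * A) ((2 * κ * (n + 1)) * A) 0 := by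
    have h1 : HasDerivAt (fun h : ℝ => 1 + 2 * κ * h) (2 * κ) 0 := by
      simpa using ((hasDerivAt_id (0:ℝ)).const_mul (2 * κ)).const_add 1
    have h2 := (h1.fun_pow (n + 1)).mul_const A
    have e : (2 * κ * (n + 1)) * A = (((n + 1 : ℕ) : ℝ) * (1 + 2 * κ * 0) ^ (n + 1 - 1) * (2 * κ)) * A := by
      rw [mul_zero, add_zero, one_pow]
      push_cast
      ring
    rw [e]
    exact h2
  have ht := hd.tendsto_slope_zero_right
  have hc : Tendsto (fun h : ℝ => (1 - κ) * (1 + β * h) ^ n * V) (𝓝[>] 0) (𝓝 ((1 - κ) * V)) := by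
    have : Continuous (fun h : ℝ => (1 - κ) * (1 + β * h) ^ n * V) := by fun_prop
    have h2 := this.tendsto 0
    simp only [mul_zero, add_zero, one_pow, mul_one] at h2
    exact h2.mono_left nhdsWithin_le_nhds
  have hs := (ht.const_mul (1 / 2)).add hc
  have he : (1 / 2 : ℝ) * (2 * κ * (n + 1) * A) + (1 - κ) * V = κ * (n + 1) * A + (1 - κ) * V := by ring
  rw [he] at hs
  refine ge_of_tendsto hs ?_
  filter_upwards [self_mem_nhdsWithin] with h hh
  have hh' : 0 < h := hh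
  have h1 := H h hh'
  simp only [zero_add, mul_zero, add_zero, one_pow, one_mul, smul_eq_mul]
  have h2 : h * (1 / 2 * (h⁻¹ * ((1 + 2 * κ * h) ^ (n + 1) * A - A)) + (1 - κ) * (1 + β * h) ^ n * V) =
      1 / 2 * ((1 + 2 * κ * h) ^ (n + 1) * A - A) + (1 - κ) * h * (1 + β * h) ^ n * V := by
    field_simp
  refine le_of_mul_le_mul_left ?_ hh'
  rw [h2]
  linarith

/-- the main inequality for `0 ∈ K`, `-K ⊆ α K` -/
theorem mainA {K : Set (EuclideanSpace ℝ (Fin n))} (hK : IsCompact K) (hc : Convex ℝ K)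
    (h0 : (0 : EuclideanSpace ℝ (Fin n)) ∈ K) {α : ℝ} (hα : 1 ≤ α)
    (hneg : ∀ y ∈ K, ∃ z ∈ K, -y = α • z) {m : ℝ}
    (hAV : (mu n (E K)).toReal ≤ m / ((n : ℝ) + 1) * (volume K).toReal) :
    (α + 1) * (volume (R K)).toReal ≤ ((α - 1) * m + 2) * (volume K).toReal := by
  set κ := (α - 1) / (α + 1) with hκd
  have hα1 : (0:ℝ) < α + 1 := by linarith
  have hκ : κ * (α + 1) = α - 1 := by rw [hκd]; field_simp
  have hκ0 : 0 ≤ κ := div_nonneg (by linarith) hα1.le
  have hκ1 : κ ≤ 1 := by rw [hκd, div_le_one hα1]; linarith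
  have hVf : volume K ≠ ⊤ := hK.measure_lt_top.ne
  have hRf : volume (R K) ≠ ⊤ := (R_compact hK).measure_lt_top.ne
  have hEf : mu n (E K) ≠ ⊤ := (E_compact hK).measure_lt_top.ne
  set A := (mu n (E K)).toReal with hA
  set V := (volume K).toReal with hV
  set r := (volume (R K)).toReal with hr
  have hA0 : 0 ≤ A := ENNReal.toReal_nonneg
  have hV0 : 0 ≤ V := ENNReal.toReal_nonneg
  have hlim := limit_arg (A := A) (V := V) (r := r) (κ := κ) (β := α - 1) (n := n) (by
    intro h hh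
    have h1 := (lower hK hc hh.le).trans (upper hc h0 hα hneg hh hκ)
    have hn1 : 0 ≤ (1 + 2 * κ * h) ^ (n + 1) := by positivity
    have hn2 : 0 ≤ 2 * (1 - κ) * h * (1 + (α - 1) * h) ^ n := by
      have : 0 ≤ (α - 1) * h := mul_nonneg (by linarith) hh.le
      have : 0 ≤ 1 - κ := by linarith
      positivity
    have h2 := ENNReal.toReal_mono (ENNReal.add_ne_top.2
      ⟨ENNReal.mul_ne_top ENNReal.ofReal_ne_top hEf, ENNReal.mul_ne_top ENNReal.ofReal_ne_top hVf⟩) h1
    rw [ENNReal.toReal_add hEf (ENNReal.mul_ne_top ENNReal.ofReal_ne_top hRf),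
      ENNReal.toReal_add (ENNReal.mul_ne_top ENNReal.ofReal_ne_top hEf)
        (ENNReal.mul_ne_top ENNReal.ofReal_ne_top hVf),
      ENNReal.toReal_mul, ENNReal.toReal_mul, ENNReal.toReal_mul, ENNReal.toReal_ofReal (by positivity),
      ENNReal.toReal_ofReal hn1, ENNReal.toReal_ofReal hn2] at h2
    exact h2)
  have h3 : r ≤ κ * m * V + (1 - κ) * V := by
    refine hlim.trans ?_
    have : κ * (n + 1) * A ≤ κ * (n + 1) * (m / ((n : ℝ) + 1) * V) :=
      mul_le_mul_of_nonneg_left hAV (by positivity)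
    have e : κ * (n + 1) * (m / ((n : ℝ) + 1) * V) = κ * m * V := by
      field_simp
    linarith
  have h4 := mul_le_mul_of_nonneg_left h3 hα1.le
  refine h4.trans (le_of_eq ?_)
  linear_combination (m * V - V) * hκ

end Pool.Agent.TH870.FR
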