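import Pool.Agent.TH870.FRd
import Pool.Agent.TH650.MV.Mix

set_option autoImplicit false
open Pointwise MeasureTheory Set Filter Topology Multiset Module
open scoped NNReal

namespace Pool.Agent.TH870.FR
open Pool.Agent.TH650.MV

variable {n : ℕ}

/-- `min (C(n,i), α^i, α^(n-i))` -/
noncomputable def mi (n : ℕ) (α : ℝ) (i : ℕ) : ℝ := min (n.choose i : ℝ) (min (α ^ i) (α ^ (n - i)))

/-- the mixed volumes of `K` and `-K` -/
theorem coeffs (K : ConvexBody (EuclideanSpace ℝ (Fin n)))
    (hi : (interior (K : Set (EuclideanSpace ℝ (Fin n)))).Nonempty) (α : ℝ≥0)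
    (hneg : ∀ y ∈ K, ∃ z ∈ K, -y = (α : ℝ) • z) :
    ∃ c : ℕ → ℝ, (∀ a b : ℝ, 0 ≤ a → 0 ≤ b →
      (volume (a • (K : Set (EuclideanSpace ℝ (Fin n))) + b • (-(K : Set (EuclideanSpace ℝ (Fin n)))))).toReal =
        ∑ i ∈ Finset.range (n + 1), (n.choose i : ℝ) * c i * a ^ i * b ^ (n - i)) ∧
      ∀ i ≤ n, c i ≤ mi n α i * (volume (K : Set (EuclideanSpace ℝ (Fin n)))).toReal := by
  set N : ConvexBody (EuclideanSpace ℝ (Fin n)) :=
    ⟨-(K : Set (EuclideanSpace ℝ (Fin n))), K.convex.neg, K.isCompact.neg, K.nonempty.neg⟩ with hN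
  have hNc : (N : Set (EuclideanSpace ℝ (Fin n))) = -(K : Set (EuclideanSpace ℝ (Fin n))) := rfl
  have hf : finrank ℝ (EuclideanSpace ℝ (Fin n)) = n := finrank_euclideanSpace_fin
  have hvN : vl volume N = vl volume K := by
    unfold vl
    rw [hNc, Measure.measure_neg]
  have hself : ∀ L : ConvexBody (EuclideanSpace ℝ (Fin n)), V volume (replicate n L) = vl volume L := by
    intro L
    have := V_self (volume : Measure (EuclideanSpace ℝ (Fin n))) L
    rwa [hf] at this
  have hid : ∀ a b : ℝ, 0 ≤ a → 0 ≤ b →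
      (volume (a • (K : Set (EuclideanSpace ℝ (Fin n))) + b • (-(K : Set (EuclideanSpace ℝ (Fin n)))))).toReal =
        ∑ i ∈ Finset.range (n + 1), (n.choose i : ℝ) * V volume (replicate i K + replicate (n - i) N) *
          a ^ i * b ^ (n - i) := by
    intro a b ha hb
    lift a to ℝ≥0 using ha
    lift b to ℝ≥0 using hb
    have h1 : (volume ((a : ℝ) • (K : Set (EuclideanSpace ℝ (Fin n))) +
        (b : ℝ) • (-(K : Set (EuclideanSpace ℝ (Fin n)))))).toReal = vl volume (a • K + b • N) := by
      unfold vl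
      rw [ConvexBody.coe_add, ConvexBody.coe_smul', ConvexBody.coe_smul']
      rfl
    rw [h1, ← hself]
    have h2 := V_binom (volume : Measure (EuclideanSpace ℝ (Fin n))) (a • K) (b • N) n 0 (by simp)
    simp only [add_zero] at h2
    rw [h2]
    refine Finset.sum_congr rfl fun i hi' => ?_
    have hin : i ≤ n := by simpa [Nat.lt_succ_iff] using hi'
    rw [V_smul_replicate volume a K i _ (by rw [card_replicate, hf]; omega), add_comm (replicate i K),
      V_smul_replicate volume b N (n - i) _ (by rw [card_replicate, hf]; omega),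
      add_comm (replicate (n - i) N)]
    ring
  refine ⟨fun i => V volume (replicate i K + replicate (n - i) N), hid, fun i hin => ?_⟩
  have hV0 : 0 ≤ (volume (K : Set (EuclideanSpace ℝ (Fin n)))).toReal := ENNReal.toReal_nonneg
  have hKN : K ≤ α • N := by
    rw [← SetLike.coe_subset_coe, ConvexBody.coe_smul']
    intro y hy
    obtain ⟨z, hz, e⟩ := hneg y hy
    refine ⟨-z, by rw [hNc]; simpa using hz, ?_⟩
    show (α : ℝ) • (-z) = y
    rw [smul_neg, ← e, neg_neg]
  have hNK : N ≤ α • K := by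
    rw [← SetLike.coe_subset_coe, ConvexBody.coe_smul']
    intro y hy
    rw [hNc] at hy
    obtain ⟨z, hz, e⟩ := hneg (-y) hy
    refine ⟨z, hz, ?_⟩
    show (α : ℝ) • z = y
    rw [← e, neg_neg]
  unfold mi
  rw [min_mul_of_nonneg _ _ hV0, min_mul_of_nonneg _ _ hV0]
  refine le_min ?_ (le_min ?_ ?_)
  · exact Pool.Agent.TH421.GO.godbersen_euc (fun n m v h => Pool.Agent.TH650.GB.core h) n
      (K : Set (EuclideanSpace ℝ (Fin n))) K.isCompact K.convex hi _ hid i hin
  · refine (V_mono_replicate volume hKN i _ (by rw [card_replicate, hf]; omega)).trans ?_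
    rw [V_smul_replicate volume α N i _ (by rw [card_replicate, hf]; omega), ← replicate_add,
      show i + (n - i) = n by omega, hself, hvN]
    rfl
  · show V volume (replicate i K + replicate (n - i) N) ≤ _
    rw [add_comm]
    refine (V_mono_replicate volume hNK (n - i) _ (by rw [card_replicate, hf]; omega)).trans ?_
    rw [V_smul_replicate volume α K (n - i) _ (by rw [card_replicate, hf]; omega), ← replicate_add,
      show n - i + i = n by omega, hself]
    rfl

lemma beta' (n j : ℕ) (hj : j ≤ n) :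
    (n.choose j : ℝ) * ∫ t in (0:ℝ)..1, (1 - t) ^ j * t ^ (n - j) = 1 / ((n : ℝ) + 1) := by
  have := beta n (n - j) (by omega)
  rwa [Nat.choose_symm hj, show n - (n - j) = j by omega] at this

theorem volE2 {K : Set (EuclideanSpace ℝ (Fin n))} (hK : IsCompact K) (hc : Convex ℝ K)
    (hi : (interior K).Nonempty) {α : ℝ} (hα : 1 ≤ α) (hneg : ∀ y ∈ K, ∃ z ∈ K, -y = α • z) :
    (mu n (E K)).toReal ≤ (∑ i ∈ Finset.range (n + 1), mi n α i) / ((n : ℝ) + 1) * (volume K).toReal := by
  obtain ⟨c, hid, hle⟩ := coeffs ⟨K, hc, hK, hi.mono interior_subset⟩ hi ⟨α, by linarith⟩ hneg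
  change ∀ a b : ℝ, 0 ≤ a → 0 ≤ b → (volume (a • K + b • -K)).toReal =
        ∑ i ∈ Finset.range (n + 1), (n.choose i : ℝ) * c i * a ^ i * b ^ (n - i) at hid
  change ∀ i ≤ n, c i ≤ mi n α i * (volume K).toReal at hle
  set q : ℝ → ℝ := fun t => ∑ i ∈ Finset.range (n + 1), (n.choose i : ℝ) * c i * (1 - t) ^ i * t ^ (n - i) with hq
  have hcont : Continuous q := by rw [hq]; fun_prop
  have hqi : ∫ t in (0:ℝ)..1, q t = (∑ i ∈ Finset.range (n + 1), c i) / ((n : ℝ) + 1) := by
    rw [hq, intervalIntegral.integral_finsetSum (fun j _ => Continuous.intervalIntegrable (by fun_prop) _ _),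
      Finset.sum_div]
    refine Finset.sum_congr rfl fun i hi' => ?_
    have hin : i ≤ n := by simpa [Nat.lt_succ_iff] using hi'
    have h1 := beta' n i hin
    have h2 : ∫ t in (0:ℝ)..1, (n.choose i : ℝ) * c i * (1 - t) ^ i * t ^ (n - i) =
        c i * ((n.choose i : ℝ) * ∫ t in (0:ℝ)..1, (1 - t) ^ i * t ^ (n - i)) := by
      rw [← mul_assoc, mul_comm (c i), ← intervalIntegral.integral_const_mul]
      congr 1
      ext t; ring
    rw [h2, h1]
    ring
  have hsec : ∀ t ∈ Icc (0:ℝ) 1, volume ((fun y => (y, t)) ⁻¹' E K) ≤ ENNReal.ofReal (q t) := by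
    intro t ht
    have h1 := hid (1 - t) t (by linarith [ht.2]) ht.1
    have hcomp : IsCompact ((1 - t) • K + t • -K) := (hK.smul _).add (hK.neg.smul _)
    have h2 : volume ((1 - t) • K + t • -K) = ENNReal.ofReal (q t) := by
      rw [show q t = (volume ((1 - t) • K + t • -K)).toReal from h1.symm,
        ENNReal.ofReal_toReal hcomp.measure_lt_top.ne]
    rw [← h2]
    refine measure_mono ?_
    rintro y ⟨-, -, x, hx, z, hz, e⟩
    simp only at e
    have e' : (1 - t) • x - t • z = (1 - t) • x + t • (-z) := by rw [smul_neg, ← sub_eq_add_neg]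
    rw [e, e']
    exact Set.add_mem_add (Set.smul_mem_smul_set hx) (Set.smul_mem_smul_set (by simpa using hz))
  have hnn : ∀ t ∈ Icc (0:ℝ) 1, 0 ≤ q t := by
    intro t ht
    have h1 := hid (1 - t) t (by linarith [ht.2]) ht.1
    rw [show q t = (volume ((1 - t) • K + t • -K)).toReal from h1.symm]
    exact ENNReal.toReal_nonneg
  have hE : mu n (E K) ≤ ENNReal.ofReal ((∑ i ∈ Finset.range (n + 1), c i) / ((n : ℝ) + 1)) := by
    rw [Measure.prod_apply_symm (E_compact hK).measurableSet]
    have hb : ∀ t : ℝ, volume ((fun y => (y, t)) ⁻¹' E K) ≤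
        (Icc (0:ℝ) 1).indicator (fun t => ENNReal.ofReal (q t)) t := by
      intro t
      by_cases ht : t ∈ Icc (0:ℝ) 1
      · rw [indicator_of_mem ht]
        exact hsec t ht
      · rw [indicator_of_notMem ht]
        have : (fun y => (y, t)) ⁻¹' E K = ∅ := by
          ext y
          simp only [mem_preimage, mem_empty_iff_false, iff_false]
          rintro ⟨h0, h1, -⟩
          exact ht ⟨h0, h1⟩
        rw [this]; simp
    refine (lintegral_mono hb).trans ?_
    rw [lintegral_indicator measurableSet_Icc]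
    rw [← ofReal_integral_eq_lintegral_ofReal (hcont.integrableOn_Icc)
      ((ae_restrict_iff' measurableSet_Icc).2 (Eventually.of_forall hnn))]
    rw [integral_Icc_eq_integral_Ioc, ← intervalIntegral.integral_of_le zero_le_one, hqi]
  have hsum : (∑ i ∈ Finset.range (n + 1), c i) ≤
      (∑ i ∈ Finset.range (n + 1), mi n α i) * (volume K).toReal := by
    rw [Finset.sum_mul]
    exact Finset.sum_le_sum fun i hi' => hle i (by simpa [Nat.lt_succ_iff] using hi')
  have hq0 : 0 ≤ (∑ i ∈ Finset.range (n + 1), c i) / ((n : ℝ) + 1) := by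
    rw [← hqi]
    exact intervalIntegral.integral_nonneg zero_le_one hnn
  have h5 := ENNReal.toReal_mono ENNReal.ofReal_ne_top hE
  rw [ENNReal.toReal_ofReal hq0] at h5
  refine h5.trans ?_
  rw [div_mul_eq_mul_div]
  exact div_le_div_of_nonneg_right hsum (by positivity)

end Pool.Agent.TH870.FR
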